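import Pool.Agent.Y280.OC.Norm
/-!
The operator space dual of `E_c` is `E_{1/c}`.
-/
set_option autoImplicit false
open scoped Matrix.Norms.L2Operator
open scoped ComplexOrder
open Matrix

namespace Pool.Agent.Y280.OC

open Pool.Agent.Helper547 Pool.Agent.Helper547.OS

/-- `sqrt (1 + c)` -/
noncomputable def b1 (c : ℝ) : ℝ := Real.sqrt (1 + c)

/-- `sqrt (1 + 1/c)` -/
noncomputable def b0 (c : ℝ) : ℝ := Real.sqrt (1 + c⁻¹)

section
variable {c : ℝ} (hc : 0 < c)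

include hc in
lemma b1_sq : b1 c * b1 c = 1 + c := Real.mul_self_sqrt (by linarith)

include hc in
lemma b0_sq : b0 c * b0 c = 1 + c⁻¹ := Real.mul_self_sqrt (by positivity)

include hc in
lemma b1_pos : 0 < b1 c := Real.sqrt_pos.2 (by linarith)

include hc in
lemma b0_pos : 0 < b0 c := Real.sqrt_pos.2 (by positivity)

include hc in
lemma b0_mul : b0 c * Real.sqrt c = b1 c := by
  unfold b0 b1
  rw [← Real.sqrt_mul (by positivity)]
  congr 1
  field_simp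
  ring

end

variable {c : ℝ} (hc : 0 < c)

include hc in
/-- tensor type estimate -/
lemma tensor_bound' {m n : ℕ} (V0 V1 : Matrix (Fin m) (Fin m) ℂ) (Z0 Z1 : Matrix (Fin n) (Fin n) ℂ) :
    ‖(Matrix.of fun (p q : Fin m × Fin n) => V0 p.1 q.1 * Z0 p.2 q.2 + V1 p.1 q.1 * Z1 p.2 q.2 :
      Matrix (Fin m × Fin n) (Fin m × Fin n) ℂ)‖ ≤
    pc c⁻¹ ((((b1 c : ℝ) : ℂ) * Complex.I) • Z1) (((b0 c : ℝ) : ℂ) • Z0) * pc c V0 V1 := by
  have hd : 0 < c⁻¹ := inv_pos.2 hc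
  set P := pc c⁻¹ ((((b1 c : ℝ) : ℂ) * Complex.I) • Z1) (((b0 c : ℝ) : ℂ) • Z0) with hP
  have hP0 : 0 ≤ P := pc_nonneg hd _ _
  set N := pc c V0 V1 with hN
  have hN0 : 0 ≤ N := pc_nonneg hc _ _
  suffices h : ∀ b : ℝ, N < b → ‖(Matrix.of fun (p q : Fin m × Fin n) => V0 p.1 q.1 * Z0 p.2 q.2 + V1 p.1 q.1 * Z1 p.2 q.2 :
      Matrix (Fin m × Fin n) (Fin m × Fin n) ℂ)‖ ≤ P * b by
    apply le_of_forall_pos_le_add
    intro δ hδ
    refine (h (N + δ / (P + 1)) (by have : 0 < δ / (P + 1) := by positivity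
                                    linarith)).trans ?_
    have h1 : P * (δ / (P + 1)) ≤ δ := by
      rw [mul_div_assoc', div_le_iff₀ (by positivity)]
      nlinarith
    nlinarith
  intro b hb
  have hb0 : 0 < b := lt_of_le_of_lt hN0 hb
  have hbb : (b : ℂ) ≠ 0 := by exact_mod_cast hb0.ne'
  set μ : ℝ := (1 - (N / b) ^ 2) * min 1 c with hμ
  have hNc : N / b < 1 := (div_lt_one hb0).2 hb
  have hNc0 : 0 ≤ N / b := by positivity
  have hone : 0 < 1 - (N / b) ^ 2 := by nlinarith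
  have hμpos : 0 < μ := mul_pos hone (lt_min one_pos hc)
  obtain ⟨t, B, A, ht, hB, hA, hU0, hU1⟩ := fact c (Real.sqrt c) (b0 c) (b1 c) hc (Real.sqrt_pos.2 hc)
    (Real.mul_self_sqrt hc.le) (b1_sq hc) (b0_mul hc)
    (((b⁻¹ : ℝ) : ℂ) • V0) (((b⁻¹ : ℝ) : ℂ) • V1) μ hμpos (by
    intro r hr
    have h1 : ‖((b⁻¹ : ℝ) : ℂ) • V0 + (r : ℂ) • ((b⁻¹ : ℝ) : ℂ) • V1‖ ≤ (N / b) * wt c r := by
      have e1 : ((b⁻¹ : ℝ) : ℂ) • V0 + (r : ℂ) • ((b⁻¹ : ℝ) : ℂ) • V1 = ((b⁻¹ : ℝ) : ℂ) • (V0 + (r : ℂ) • V1) := by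
        rw [smul_add, smul_comm (r : ℂ)]
      rw [e1, norm_smul, Complex.norm_real, Real.norm_of_nonneg (by positivity)]
      have := mul_le_mul_of_nonneg_left (le_pc hc V0 V1 r hr) (show 0 ≤ b⁻¹ by positivity)
      refine this.trans (le_of_eq ?_)
      rw [← hN]; ring
    have h2 := psd_of_norm_le (mul_nonneg hNc0 (wt_pos hc r).le) h1
    rw [mul_pow, wt_sq hc] at h2
    -- the remaining multiple of the identity
    set ρ : ℝ := (1 + c * (r * r)) - (N / b) ^ 2 * (1 + c * (r * r)) - μ * (1 + r * r) with hρ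
    have hρ0 : 0 ≤ ρ := by
      have e1 : ρ = (1 - (N / b) ^ 2) * ((1 - min 1 c) + (c - min 1 c) * (r * r)) := by
        rw [hρ, hμ]; ring
      rw [e1]
      refine mul_nonneg hone.le (add_nonneg (sub_nonneg.2 (min_le_left _ _))
        (mul_nonneg (sub_nonneg.2 (min_le_right _ _)) (mul_self_nonneg r)))
    have h3 : (((ρ : ℝ) : ℂ) • (1 : Matrix (Fin m) (Fin m) ℂ)).PosSemidef := by
      refine Matrix.PosSemidef.one.smul ?_
      exact_mod_cast hρ0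
    have h4 := h2.add h3
    convert h4 using 1
    rw [hρ]
    push_cast
    simp only [sub_smul]
    abel)
  have hV0 : ∀ i j, V0 i j = (b : ℂ) * ∑ k, A i k * (((b0 c : ℝ) : ℂ) * (t k : ℂ) * B k j) := by
    intro i j
    have h1 := congrFun (congrFun hU0 i) j
    rw [Matrix.smul_apply, smul_eq_mul, Matrix.mul_apply] at h1
    have h2 : V0 i j = (b : ℂ) * (((b⁻¹ : ℝ) : ℂ) * V0 i j) := by
      push_cast; field_simp
    rw [h2, h1]
    congr 1
    refine Finset.sum_congr rfl fun k _ => ?_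
    rw [Matrix.smul_apply, smul_eq_mul, Matrix.diagonal_mul]; ring
  have hV1 : ∀ i j, V1 i j = (b : ℂ) * ∑ k, A i k * (((b1 c : ℝ) : ℂ) * Complex.I * B k j) := by
    intro i j
    have h1 := congrFun (congrFun hU1 i) j
    rw [Matrix.smul_apply, smul_eq_mul, Matrix.mul_apply] at h1
    have h2 : V1 i j = (b : ℂ) * (((b⁻¹ : ℝ) : ℂ) * V1 i j) := by
      push_cast; field_simp
    rw [h2, h1]
    congr 1
  rw [l2_le_iff _ (by positivity)]
  intro ξ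
  -- intermediate vectors
  set y : (Fin m ⊕ Fin m) → Fin n → ℂ := fun k b => (B *ᵥ (fun j => ξ (j, b))) k with hy
  set G : (Fin m ⊕ Fin m) → Matrix (Fin n) (Fin n) ℂ := fun k =>
    (((b1 c : ℝ) : ℂ) * Complex.I) • Z1 + ((t k : ℝ) : ℂ) • (((b0 c : ℝ) : ℂ) • Z0) with hG
  have hout : ∀ i a, ((Matrix.of fun (p q : Fin m × Fin n) => V0 p.1 q.1 * Z0 p.2 q.2 + V1 p.1 q.1 * Z1 p.2 q.2 :
      Matrix (Fin m × Fin n) (Fin m × Fin n) ℂ) *ᵥ ξ) (i, a) =
      (b : ℂ) * (A *ᵥ (fun k => (G k *ᵥ y k) a)) i := by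
    intro i a
    simp only [Matrix.mulVec, dotProduct, Matrix.of_apply]
    rw [Fintype.sum_prod_type]
    simp only [hV0, hV1]
    simp only [Finset.mul_sum, Finset.sum_mul, hG, hy, Matrix.add_apply, Matrix.smul_apply, smul_eq_mul, Matrix.mulVec, dotProduct,
      ← Finset.sum_add_distrib]
    have e1 : ∀ (F : Fin m → Fin n → (Fin m ⊕ Fin m) → ℂ), ∑ j, ∑ b, ∑ k, F j b k = ∑ k, ∑ b, ∑ j, F j b k := by
      intro F
      rw [Finset.sum_comm]
      have : ∀ b, ∑ j, ∑ k, F j b k = ∑ k, ∑ j, F j b k := fun b => Finset.sum_comm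
      simp only [this]
      rw [Finset.sum_comm]
    rw [e1]
    refine Finset.sum_congr rfl fun k _ => Finset.sum_congr rfl fun b _ => Finset.sum_congr rfl fun j _ => ?_
    ring
  have hsum1 : ∑ p, ‖((Matrix.of fun (p q : Fin m × Fin n) => V0 p.1 q.1 * Z0 p.2 q.2 + V1 p.1 q.1 * Z1 p.2 q.2 :
      Matrix (Fin m × Fin n) (Fin m × Fin n) ℂ) *ᵥ ξ) p‖ ^ 2 =
      ∑ a, ∑ i, b ^ 2 * ‖(A *ᵥ (fun k => (G k *ᵥ y k) a)) i‖ ^ 2 := by
    rw [Fintype.sum_prod_type, Finset.sum_comm]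
    refine Finset.sum_congr rfl fun a _ => Finset.sum_congr rfl fun i _ => ?_
    rw [hout, norm_mul, mul_pow, Complex.norm_real, Real.norm_eq_abs, sq_abs]
  rw [hsum1]
  have hstep1 : ∀ a, ∑ i, b ^ 2 * ‖(A *ᵥ (fun k => (G k *ᵥ y k) a)) i‖ ^ 2 ≤ b ^ 2 * ∑ k, ‖(G k *ᵥ y k) a‖ ^ 2 := by
    intro a
    rw [← Finset.mul_sum]
    exact mul_le_mul_of_nonneg_left (contraction_mulVec hA _) (by positivity)
  refine (Finset.sum_le_sum fun a _ => hstep1 a).trans ?_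
  rw [← Finset.mul_sum, Finset.sum_comm]
  have hstep2 : ∀ k, ∑ a, ‖(G k *ᵥ y k) a‖ ^ 2 ≤ P ^ 2 * ∑ b, (1 + c⁻¹ * (t k * t k)) * ‖y k b‖ ^ 2 := by
    intro k
    have h1 : ‖G k‖ ≤ P * wt c⁻¹ (t k) := le_pc hd _ _ (t k) (ht k)
    have h2 := (l2_le_iff (G k) (mul_nonneg hP0 (wt_pos hd _).le)).1 h1 (y k)
    rw [mul_pow, wt_sq hd, mul_assoc, Finset.mul_sum] at h2
    exact h2
  have hstep3 : ∑ k, ∑ a, ‖(G k *ᵥ y k) a‖ ^ 2 ≤ P ^ 2 * ∑ q, ‖ξ q‖ ^ 2 := by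
    refine (Finset.sum_le_sum fun k _ => hstep2 k).trans ?_
    rw [← Finset.mul_sum, Finset.sum_comm]
    apply mul_le_mul_of_nonneg_left _ (by positivity)
    rw [Fintype.sum_prod_type, Finset.sum_comm (f := fun (x : Fin m) (y : Fin n) => ‖ξ (x, y)‖ ^ 2)]
    apply le_of_eq
    refine Finset.sum_congr rfl fun b _ => ?_
    exact weighted_isometry' c⁻¹ hB (fun j => ξ (j, b))
  calc b ^ 2 * ∑ k, ∑ a, ‖(G k *ᵥ y k) a‖ ^ 2 ≤ b ^ 2 * (P ^ 2 * ∑ q, ‖ξ q‖ ^ 2) :=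
        mul_le_mul_of_nonneg_left hstep3 (by positivity)
    _ = (P * b) ^ 2 * ∑ q, ‖ξ q‖ ^ 2 := by ring

include hc in
/-- the one by one matrix norm of the extreme elements -/
lemma extreme_norm' (s : ℝ) (hs : |s| ≤ 1) :
    aff c 1 (Matrix.of fun _ _ => (((b0 c : ℝ) : ℂ) * (s : ℂ), ((b1 c : ℝ) : ℂ) * Complex.I)) ≤ wt c⁻¹ s := by
  show pc _ _ _ ≤ _
  apply pc_le hc
  intro r hr
  have e0 : ((Matrix.of fun (_ _ : Fin 1) => ((((b0 c : ℝ) : ℂ) * (s : ℂ), ((b1 c : ℝ) : ℂ) * Complex.I) : ℂ × ℂ)).map Prod.fst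
      + (r : ℂ) • (Matrix.of fun (_ _ : Fin 1) => ((((b0 c : ℝ) : ℂ) * (s : ℂ), ((b1 c : ℝ) : ℂ) * Complex.I) : ℂ × ℂ)).map Prod.snd)
      = Matrix.of fun (_ _ : Fin 1) => (((b0 c * s : ℝ) : ℂ) + ((r * b1 c : ℝ) : ℂ) * Complex.I) := by
    ext i j; simp; ring
  rw [e0, l2_const_one]
  have e2 : ‖((b0 c * s : ℝ) : ℂ) + ((r * b1 c : ℝ) : ℂ) * Complex.I‖
      = Real.sqrt ((1 + c⁻¹) * (s * s) + (1 + c) * (r * r)) := by
    rw [Complex.norm_def, Complex.normSq_apply]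
    congr 1
    simp only [Complex.add_re, Complex.ofReal_re, Complex.mul_re, Complex.I_re, Complex.ofReal_im,
      Complex.I_im, Complex.add_im, Complex.mul_im]
    rw [← b0_sq hc, ← b1_sq hc]
    ring
  rw [e2]
  unfold wt
  rw [← Real.sqrt_mul (by have := q_pos (inv_pos.2 hc) s; exact this.le)]
  apply Real.sqrt_le_sqrt
  have h1 := abs_le.1 hs
  have h2 := abs_le.1 hr
  have h4 : 0 ≤ (1 - s * s) * (1 - r * r) := by
    apply mul_nonneg <;> nlinarith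
  have h5 : (1 + c⁻¹ * (s * s)) * (1 + c * (r * r)) = 1 + c⁻¹ * (s * s) + c * (r * r) + (s * s) * (r * r) := by
    field_simp
    ring
  rw [h5]
  nlinarith

/-- the linear map from the dual -/
noncomputable def dualMap' (c : ℝ) (hc : 0 < c) : Module.Dual ℂ (ℂ × ℂ) ≃ₗ[ℂ] (ℂ × ℂ) where
  toFun f := (((b1 c : ℝ) : ℂ) * Complex.I * f (0, 1), ((b0 c : ℝ) : ℂ) * f (1, 0))
  invFun p :=
    { toFun := fun x => x.1 * (((b0 c : ℝ) : ℂ)⁻¹ * p.2) + x.2 * (-(((b1 c : ℝ) : ℂ)⁻¹ * Complex.I * p.1))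
      map_add' := fun x y => by simp only [Prod.fst_add, Prod.snd_add]; ring
      map_smul' := fun c x => by simp only [Prod.smul_fst, Prod.smul_snd, smul_eq_mul, RingHom.id_apply]; ring }
  map_add' f g := by
    simp only [LinearMap.add_apply, Prod.mk_add_mk, Prod.mk.injEq]
    constructor <;> ring
  map_smul' c f := by
    simp only [LinearMap.smul_apply, RingHom.id_apply, Prod.smul_mk, smul_eq_mul, Prod.mk.injEq]
    constructor <;> ring
  left_inv f := by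
    have hs0 : ((b0 c : ℝ) : ℂ) ≠ 0 := by exact_mod_cast (b0_pos hc).ne'
    have hs1 : ((b1 c : ℝ) : ℂ) ≠ 0 := by exact_mod_cast (b1_pos hc).ne'
    apply LinearMap.ext
    intro x
    have hx : x = x.1 • ((1, 0) : ℂ × ℂ) + x.2 • ((0, 1) : ℂ × ℂ) := by
      ext <;> simp
    have hfx : f x = x.1 * f (1, 0) + x.2 * f (0, 1) := by
      conv_lhs => rw [hx]
      rw [map_add, map_smul, map_smul, smul_eq_mul, smul_eq_mul]
    simp only [LinearMap.coe_mk, AddHom.coe_mk]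
    rw [hfx]
    have hI := Complex.I_mul_I
    field_simp
    linear_combination (-(x.2 * f (0, 1))) * hI
  right_inv p := by
    have hs0 : ((b0 c : ℝ) : ℂ) ≠ 0 := by exact_mod_cast (b0_pos hc).ne'
    have hs1 : ((b1 c : ℝ) : ℂ) ≠ 0 := by exact_mod_cast (b1_pos hc).ne'
    have hI := Complex.I_mul_I
    simp only [LinearMap.coe_mk, AddHom.coe_mk]
    apply Prod.ext
    · simp only
      field_simp
      linear_combination (-((b0 c : ℝ) : ℂ) * p.1) * hI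
    · simp only
      field_simp
      ring

lemma dual_norm_eq' (hc : 0 < c) (n : ℕ) (f : Matrix (Fin n) (Fin n) (Module.Dual ℂ (ℂ × ℂ))) :
    dualNorms (aff c) n f = aff c⁻¹ n (f.map (dualMap' c hc)) := by
  have hd : 0 < c⁻¹ := inv_pos.2 hc
  set Z0 : Matrix (Fin n) (Fin n) ℂ := Matrix.of fun i j => f i j (1, 0) with hZ0
  set Z1 : Matrix (Fin n) (Fin n) ℂ := Matrix.of fun i j => f i j (0, 1) with hZ1
  have hf : ∀ i j (x : ℂ × ℂ), f i j x = x.1 * Z0 i j + x.2 * Z1 i j := by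
    intro i j x
    have hx : x = x.1 • ((1, 0) : ℂ × ℂ) + x.2 • ((0, 1) : ℂ × ℂ) := by
      ext <;> simp
    conv_lhs => rw [hx]
    rw [map_add, map_smul, map_smul, smul_eq_mul, smul_eq_mul]
    rfl
  have e1 : aff c⁻¹ n (f.map (dualMap' c hc)) =
      pc c⁻¹ ((((b1 c : ℝ) : ℂ) * Complex.I) • Z1) (((b0 c : ℝ) : ℂ) • Z0) := by
    show pc _ _ _ = _
    congr 1
  rw [e1]
  set P := pc c⁻¹ ((((b1 c : ℝ) : ℂ) * Complex.I) • Z1) (((b0 c : ℝ) : ℂ) • Z0) with hP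
  have hmemP : 0 ≤ P ∧ ∀ (m : ℕ) (x : Matrix (Fin m) (Fin m) (ℂ × ℂ)),
      ‖(Matrix.of fun (p q : Fin m × Fin n) => f p.2 q.2 (x p.1 q.1) :
        Matrix (Fin m × Fin n) (Fin m × Fin n) ℂ)‖ ≤ P * aff c m x := by
    refine ⟨pc_nonneg hd _ _, ?_⟩
    intro m x
    have h1 := tensor_bound' hc (x.map Prod.fst) (x.map Prod.snd) Z0 Z1
    have h2 : (Matrix.of fun (p q : Fin m × Fin n) => f p.2 q.2 (x p.1 q.1) :
        Matrix (Fin m × Fin n) (Fin m × Fin n) ℂ) = (Matrix.of fun (p q : Fin m × Fin n) =>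
        (x.map Prod.fst) p.1 q.1 * Z0 p.2 q.2 + (x.map Prod.snd) p.1 q.1 * Z1 p.2 q.2) := by
      ext p q
      simp only [Matrix.of_apply, hf, Matrix.map_apply]
    rw [h2]
    exact h1
  apply le_antisymm
  · exact csInf_le ⟨0, fun C hC => hC.1⟩ hmemP
  · apply le_csInf
    · exact ⟨P, hmemP⟩
    · rintro C ⟨hC0, hC⟩
      apply pc_le hd
      intro s hs
      have h1 := hC 1 (Matrix.of fun _ _ => (((b0 c : ℝ) : ℂ) * (s : ℂ), ((b1 c : ℝ) : ℂ) * Complex.I))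
      have h2 := extreme_norm' hc s hs
      have h3 : ‖(((b1 c : ℝ) : ℂ) * Complex.I) • Z1 + (s : ℂ) • ((b0 c : ℝ) : ℂ) • Z0‖ =
          ‖(Matrix.of fun (p q : Fin 1 × Fin n) => f p.2 q.2 ((Matrix.of fun (_ _ : Fin 1) =>
            ((((b0 c : ℝ) : ℂ) * (s : ℂ), ((b1 c : ℝ) : ℂ) * Complex.I) : ℂ × ℂ)) p.1 q.1) :
            Matrix (Fin 1 × Fin n) (Fin 1 × Fin n) ℂ)‖ := by
        rw [← l2_submatrix ((((b1 c : ℝ) : ℂ) * Complex.I) • Z1 + (s : ℂ) • ((b0 c : ℝ) : ℂ) • Z0)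
          (Equiv.uniqueProd (Fin n) (Fin 1)) (Equiv.uniqueProd (Fin n) (Fin 1))]
        congr 1
        ext p q
        simp only [Matrix.submatrix_apply, Matrix.add_apply, Matrix.smul_apply, smul_eq_mul, Matrix.of_apply, hf,
          Equiv.uniqueProd_apply]
        ring
      rw [h3]
      exact h1.trans (mul_le_mul_of_nonneg_left h2 hC0)

end Pool.Agent.Y280.OC
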