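import Pool.Agent.Helper547.A5
/-!
Factorisation of matrix valued affine functions bounded by a quadratic weight on an interval
(weighted version of `Pool.Agent.Helper547.main_fact`).
-/
set_option autoImplicit false
open scoped ComplexOrder
open Matrix

namespace Pool.Agent.Y280.OC

open Pool.Agent.Helper547

section
variable {n m : Type*} [Fintype n] [DecidableEq n] [Fintype m] [DecidableEq m]

theorem fact (c w a0 a1 : ℝ) (hc : 0 < c) (hw : 0 < w) (hw2 : w * w = c) (ha1 : a1 * a1 = 1 + c)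
    (ha0 : a0 * w = a1) (U0 U1 : Matrix n n ℂ) (η : ℝ) (hη : 0 < η)
    (h : ∀ r : ℝ, |r| ≤ 1 → (((1 + c * (r * r) : ℝ) : ℂ) • (1 : Matrix n n ℂ)
      - (U0 + (r : ℂ) • U1)ᴴ * (U0 + (r : ℂ) • U1) - ((η * (1 + r * r) : ℝ) : ℂ) • 1).PosSemidef) :
    ∃ (t : n ⊕ n → ℝ) (B : Matrix (n ⊕ n) n ℂ) (A : Matrix n (n ⊕ n) ℂ),
      (∀ k, |t k| ≤ 1) ∧
      Bᴴ * B + ((c⁻¹ : ℝ) : ℂ) • (Bᴴ * (diagonal (fun k => (t k : ℂ)) * diagonal (fun k => (t k : ℂ))) * B) = 1 ∧
      (1 - A * Aᴴ).PosSemidef ∧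
      U0 = A * ((a0 : ℂ) • (diagonal (fun k => (t k : ℂ)) * B)) ∧
      U1 = A * (((a1 : ℂ) * Complex.I) • B) := by
  have hcC : (c : ℂ) ≠ 0 := by exact_mod_cast hc.ne'
  have h1c : (1 + c : ℝ) ≠ 0 := by positivity
  have h1cC : (1 + c : ℂ) ≠ 0 := by exact_mod_cast h1c
  have hwC : (w : ℂ) ≠ 0 := by exact_mod_cast hw.ne'
  have hw2C : (w : ℂ) * w = c := by exact_mod_cast hw2
  have ha1C : (a1 : ℂ) * a1 = 1 + c := by exact_mod_cast ha1
  have ha0C : (a0 : ℂ) * w = a1 := by exact_mod_cast ha0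
  set U : Matrix n (n ⊕ n) ℂ := fromCols U0 U1 with hU
  set E : Matrix (n ⊕ n) (n ⊕ n) ℂ := fromBlocks 1 0 0 ((c : ℂ) • 1) with hE
  set Q : Matrix (n ⊕ n) (n ⊕ n) ℂ := E - Uᴴ * U with hQ
  have hEh : E.IsHermitian := by
    rw [hE, Matrix.IsHermitian, fromBlocks_conjTranspose]
    simp
  have hUU : Uᴴ * U = fromBlocks (U0ᴴ * U0) (U0ᴴ * U1) (U1ᴴ * U0) (U1ᴴ * U1) := by
    rw [hU, conjTranspose_fromCols_eq_fromRows_conjTranspose, fromRows_mul_fromCols]
  have hQb : Q = fromBlocks (1 - U0ᴴ * U0) (-(U0ᴴ * U1)) (-(U1ᴴ * U0)) ((c : ℂ) • 1 - U1ᴴ * U1) := by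
    rw [hQ, hUU, hE, sub_eq_add_neg, fromBlocks_neg, fromBlocks_add]
    simp only [zero_add, sub_eq_add_neg]
  have hQh : Q.IsHermitian := by
    rw [hQ]; exact hEh.sub (Matrix.isHermitian_conjTranspose_mul_self U)
  obtain ⟨C, K, hC, hK, hpd⟩ := step1 Q hQh η hη (by
    intro r hr
    have := h r hr
    convert this using 2
    rw [hQb]
    simp only [toBlocks_fromBlocks₁₁, toBlocks_fromBlocks₁₂, toBlocks_fromBlocks₂₁, toBlocks_fromBlocks₂₂]
    simp only [conjTranspose_add, conjTranspose_smul, Matrix.add_mul, Matrix.mul_add, Matrix.smul_mul,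
      Matrix.mul_smul, RCLike.star_def, Complex.conj_ofReal, smul_sub, smul_add, smul_neg, smul_smul]
    push_cast
    rw [add_smul, one_smul, mul_comm (c : ℂ) ((r : ℂ) * r)]
    abel)
  set M : Matrix (n ⊕ n) (n ⊕ n) ℂ := E + blk C K with hM
  have hMU : M - Uᴴ * U = Q + blk C K := by rw [hM, hQ]; abel
  have hMpd : M.PosDef := by
    have : M = (Q + blk C K) + Uᴴ * U := by rw [← hMU]; abel
    rw [this]
    exact hpd.add_posSemidef (Matrix.posSemidef_conjTranspose_mul_self U)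
  have hMb : M = fromBlocks (1 - C) (Complex.I • K) (-(Complex.I • K)) ((c : ℂ) • 1 + C) := by
    rw [hM, hE]
    unfold blk
    rw [fromBlocks_add]
    simp only [zero_add, sub_eq_add_neg]
  -- moment data
  set κ : ℝ := (1 + c)⁻¹ with hκ
  have hκpos : 0 < κ := by rw [hκ]; positivity
  set S0 : Matrix n n ℂ := κ • ((c : ℂ) • 1 + C) with hS0
  set S1 : Matrix n n ℂ := κ • ((w : ℂ) • K) with hS1
  set S2 : Matrix n n ℂ := κ • ((c : ℂ) • (1 - C)) with hS2
  have hblock : (fromBlocks S0 S1 S1 S2).PosDef := by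
    set J : Matrix (n ⊕ n) (n ⊕ n) ℂ :=
      fromBlocks 0 ((Complex.I * w) • (1 : Matrix n n ℂ)) 1 0 with hJ
    have hJH : Jᴴ = fromBlocks 0 1 (-((Complex.I * w) • (1 : Matrix n n ℂ))) 0 := by
      rw [hJ, fromBlocks_conjTranspose]
      simp
    set J' : Matrix (n ⊕ n) (n ⊕ n) ℂ :=
      fromBlocks 0 1 ((Complex.I * w)⁻¹ • (1 : Matrix n n ℂ)) 0 with hJ'
    have hIw : Complex.I * (w : ℂ) ≠ 0 := mul_ne_zero Complex.I_ne_zero hwC
    have hJJ : J * J' = 1 := by
      rw [hJ, hJ', fromBlocks_multiply, ← fromBlocks_one]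
      congr 1
      · rw [zero_mul, zero_add, Matrix.smul_mul, one_mul, smul_smul, mul_inv_cancel₀ hIw, one_smul]
      · simp
      · simp
      · simp
    have hJu : IsUnit J := IsUnit.of_mul_eq_one _ hJJ
    have e1 : (star J * M * J).PosDef := (Matrix.IsUnit.posDef_star_left_conjugate_iff hJu).2 hMpd
    have e2 : star J * M * J = fromBlocks ((c : ℂ) • 1 + C) ((w : ℂ) • K) ((w : ℂ) • K)
        ((c : ℂ) • (1 - C)) := by
      rw [star_eq_conjTranspose, hJH, hMb, hJ, fromBlocks_multiply, fromBlocks_multiply]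
      have hI := Complex.I_mul_I
      have e3 : -(Complex.I * (w : ℂ) * Complex.I) = w := by linear_combination (-(w : ℂ)) * hI
      have e4 : -(Complex.I * (w : ℂ) * (Complex.I * w)) = c := by
        rw [← hw2C]; linear_combination (-(w : ℂ) * w) * hI
      congr 1
      · simp
      · simp only [zero_mul, one_mul, mul_zero, zero_add, add_zero, Matrix.mul_smul, mul_one, smul_neg,
          smul_smul]
        rw [← neg_smul]
        congr 1
      · simp only [zero_mul, one_mul, mul_zero, zero_add, add_zero, Matrix.mul_smul, mul_one, smul_neg,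
          smul_smul, neg_mul, Matrix.smul_mul]
        rw [← neg_smul]
        congr 1
        linear_combination (-(w : ℂ)) * hI
      · simp only [zero_mul, one_mul, mul_zero, zero_add, add_zero, Matrix.mul_smul, mul_one, smul_neg,
          smul_smul, neg_mul, Matrix.smul_mul]
        rw [← neg_smul]
        congr 1
    rw [e2] at e1
    have e3 := e1.smul hκpos
    rw [fromBlocks_smul] at e3
    exact e3
  have hS02' : S0 - S2 = C := by
    rw [hS0, hS2, ← smul_sub]
    have e1 : ((c : ℂ) • (1 : Matrix n n ℂ) + C - (c : ℂ) • (1 - C)) = (1 + c : ℂ) • C := by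
      rw [smul_sub, add_smul, one_smul]
      abel
    rw [e1, hκ]
    have e2 : ((1 + c : ℝ)⁻¹) • ((1 + c : ℂ) • C) = ((((1 + c : ℝ)⁻¹ : ℝ) : ℂ) * (1 + c)) • C := by
      rw [← smul_smul]
      ext i j
      simp
    rw [e2]
    push_cast
    rw [inv_mul_cancel₀ h1cC, one_smul]
  have hS02 : (S0 - S2).PosSemidef := by
    rw [hS02']; exact hC
  have hS01 : (S0 - S1).PosDef := by
    set J : Matrix (n ⊕ n) n ℂ := fromRows (1 : Matrix n n ℂ) (-1 : Matrix n n ℂ) with hJ
    have hinj : Function.Injective (J.mulVec) := by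
      intro x y hxy
      have h1 : (J *ᵥ x) = Sum.elim x (-x) := by
        rw [hJ, fromRows_mulVec, Matrix.neg_mulVec, Matrix.one_mulVec]
      have h2 : (J *ᵥ y) = Sum.elim y (-y) := by
        rw [hJ, fromRows_mulVec, Matrix.neg_mulVec, Matrix.one_mulVec]
      have h3 : Sum.elim x (-x) = Sum.elim y (-y) := by rw [← h1, ← h2]; exact hxy
      funext i
      exact congrFun h3 (Sum.inl i)
    have e1 : (Jᴴ * (fromBlocks S0 S1 S1 S2) * J).PosDef :=
      hblock.conjTranspose_mul_mul_same hinj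
    have e2 : (Jᴴ * (fromBlocks S0 S1 S1 S2) * J) = S0 - S1 - S1 + S2 := by
      rw [hJ, conjTranspose_fromRows_eq_fromCols_conjTranspose, fromCols_mul_fromBlocks, fromCols_mul_fromRows]
      simp
      abel
    rw [e2] at e1
    have e3 := (e1.add_posSemidef hS02).smul (show (0 : ℝ) < 1 / 2 by norm_num)
    have e4 : (1 / 2 : ℝ) • (S0 - S1 - S1 + S2 + (S0 - S2)) = S0 - S1 := by
      have : S0 - S1 - S1 + S2 + (S0 - S2) = (S0 - S1) + (S0 - S1) := by abel
      rw [this, half_smul_two]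
    rwa [e4] at e3
  obtain ⟨t, B, ht, hB0, hB1, hB2⟩ := moment S0 S1 S2 hblock.posSemidef hS02 hS01
  set D : Matrix (n ⊕ n) (n ⊕ n) ℂ := diagonal (fun k => (t k : ℂ)) with hD
  have hDh : Dᴴ = D := by
    rw [hD, diagonal_conjTranspose]
    congr 1
    funext k
    simp
  have hs0 : star (a0 : ℂ) = a0 := by simp
  have hs1 : star (a1 : ℂ) = a1 := by simp
  set W0 : Matrix (n ⊕ n) n ℂ := (a0 : ℂ) • (D * B) with hW0
  set W1 : Matrix (n ⊕ n) n ℂ := ((a1 : ℂ) * Complex.I) • B with hW1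
  set W : Matrix (n ⊕ n) (n ⊕ n) ℂ := fromCols W0 W1 with hW
  have hW0h : W0ᴴ = (a0 : ℂ) • (Bᴴ * D) := by
    rw [hW0, conjTranspose_smul, conjTranspose_mul, hDh, hs0]
  have hW1h : W1ᴴ = (-((a1 : ℂ) * Complex.I)) • Bᴴ := by
    rw [hW1, conjTranspose_smul]
    congr 1
    rw [star_mul', hs1]
    simp
  have ksm : ∀ (z : ℂ) (X : Matrix n n ℂ), z • (κ • X) = (z * (1 + c : ℂ)⁻¹) • X := by
    intro z X
    ext i j
    simp only [Matrix.smul_apply, smul_eq_mul, Complex.real_smul, hκ]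
    push_cast
    ring
  have hWW : Wᴴ * W = M := by
    rw [hW, conjTranspose_fromCols_eq_fromRows_conjTranspose, fromRows_mul_fromCols, hMb]
    have a1' : W0ᴴ * W0 = 1 - C := by
      rw [hW0h, hW0, Matrix.smul_mul, Matrix.mul_smul, smul_smul]
      have : Bᴴ * D * (D * B) = S2 := by rw [← hB2]; simp only [Matrix.mul_assoc]
      rw [this, hS2, ksm, smul_smul]
      have e : (a0 : ℂ) * a0 * (1 + c : ℂ)⁻¹ * c = 1 := by
        have : (a0 : ℂ) * a0 * c = 1 + c := by
          rw [← hw2C]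
          calc (a0 : ℂ) * a0 * (w * w) = (a0 * w) * (a0 * w) := by ring
            _ = 1 + (w : ℂ) * w := by rw [ha0C, ha1C, hw2C]
        field_simp
        linear_combination this
      rw [e, one_smul]
    have hcross : (a0 : ℂ) * a1 * (1 + c : ℂ)⁻¹ * w = 1 := by
      have : (a0 : ℂ) * a1 * w = 1 + c := by
        calc (a0 : ℂ) * a1 * w = (a0 * w) * a1 := by ring
          _ = 1 + c := by rw [ha0C, ha1C]
      field_simp
      linear_combination this
    have a2 : W0ᴴ * W1 = Complex.I • K := by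
      rw [hW0h, hW1, Matrix.smul_mul, Matrix.mul_smul, smul_smul, hB1, hS1, ksm, smul_smul]
      congr 1
      linear_combination Complex.I * hcross
    have a3 : W1ᴴ * W0 = -(Complex.I • K) := by
      rw [hW1h, hW0, Matrix.smul_mul, Matrix.mul_smul, smul_smul, ← Matrix.mul_assoc, hB1, hS1, ksm,
        smul_smul, ← neg_smul]
      congr 1
      linear_combination (-Complex.I) * hcross
    have a4 : W1ᴴ * W1 = (c : ℂ) • 1 + C := by
      rw [hW1h, hW1, Matrix.smul_mul, Matrix.mul_smul, smul_smul, hB0, hS0, ksm]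
      have : -((a1 : ℂ) * Complex.I) * ((a1 : ℂ) * Complex.I) * (1 + c : ℂ)⁻¹ = 1 := by
        have hI := Complex.I_mul_I
        have e : -((a1 : ℂ) * Complex.I) * ((a1 : ℂ) * Complex.I) = 1 + c := by
          rw [← ha1C]
          linear_combination (-((a1 : ℂ) * a1)) * hI
        rw [e, mul_inv_cancel₀ h1cC]
      rw [this, one_smul]
    rw [a1', a2, a3, a4]
  have hMu : IsUnit M.det := by
    have := hMpd.isUnit
    rwa [Matrix.isUnit_iff_isUnit_det] at this
  have hMinv : M⁻¹ * M = 1 := Matrix.nonsing_inv_mul _ hMu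
  have hMinv' : M * M⁻¹ = 1 := Matrix.mul_nonsing_inv _ hMu
  have hMih : (M⁻¹)ᴴ = M⁻¹ := hMpd.inv.1.eq
  set A : Matrix n (n ⊕ n) ℂ := U * M⁻¹ * Wᴴ with hA
  have hAW : A * W = U := by
    rw [hA, Matrix.mul_assoc, hWW, Matrix.mul_assoc, hMinv, Matrix.mul_one]
  have hAA : A * Aᴴ = U * M⁻¹ * Uᴴ := by
    rw [hA, conjTranspose_mul, conjTranspose_mul, conjTranspose_conjTranspose, hMih]
    calc U * M⁻¹ * Wᴴ * (W * (M⁻¹ * Uᴴ)) = U * M⁻¹ * ((Wᴴ * W) * M⁻¹) * Uᴴ := by
          simp only [Matrix.mul_assoc]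
      _ = U * M⁻¹ * Uᴴ := by rw [hWW, hMinv', Matrix.mul_one]
  have hAc : (1 - A * Aᴴ).PosSemidef := by
    rw [hAA]
    apply schur_le hMpd
    rw [hMU]
    exact hpd.posSemidef
  have hAWc : fromCols (A * W0) (A * W1) = fromCols U0 U1 := by
    rw [← mul_fromCols, ← hW, hAW]
  refine ⟨t, B, A, ht, ?_, hAc, ?_, ?_⟩
  · rw [hB0, hB2, hS0, hS2, ksm, smul_smul]
    ext i j
    simp only [Matrix.add_apply, Matrix.smul_apply, smul_eq_mul, Complex.real_smul, Matrix.sub_apply, hκ]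
    push_cast
    field_simp
    ring
  · exact ((fromCols_inj hAWc).1).symm
  · exact ((fromCols_inj hAWc).2).symm

end

end Pool.Agent.Y280.OC
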