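import Pool.Agent.Y280.OC.SK
/-!
The spaces `E_c` are pairwise not isometric and not isometric to the two dimensional spaces of the
list: the vectors `e` with `max_ω ‖e + ω x‖ = 1 + ‖x‖` for all `x`.
-/
set_option autoImplicit false
open scoped Matrix.Norms.L2Operator
open scoped ComplexOrder
open Matrix

namespace Pool.Agent.Y280.OC

open Pool.Agent.Helper547 Pool.Agent.Helper547.OS

/-- norm of a vector of `E_c` -/
noncomputable def nn (c : ℝ) (p : ℂ × ℂ) : ℝ := aff c 1 (Matrix.of fun _ _ => p)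

/-- vectors `e` of norm one with `max_ω ‖e + ω x‖ = 1 + ‖x‖` for all `x` -/
def IsSpear {E : Type} [AddCommGroup E] [Module ℂ E] (N : E → ℝ) (e : E) : Prop :=
  N e = 1 ∧ ∀ x, ∃ ω : ℂ, ‖ω‖ = 1 ∧ N (e + ω • x) = 1 + N x

lemma IsSpear.map {E F : Type} [AddCommGroup E] [Module ℂ E] [AddCommGroup F] [Module ℂ F]
    {N : E → ℝ} {N' : F → ℝ} (u : E ≃ₗ[ℂ] F) (hu : ∀ p, N' (u p) = N p) {e : E}
    (h : IsSpear N e) : IsSpear N' (u e) := by
  refine ⟨by rw [hu, h.1], fun x => ?_⟩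
  obtain ⟨ω, h1, h2⟩ := h.2 (u.symm x)
  refine ⟨ω, h1, ?_⟩
  have h3 : u (e + ω • u.symm x) = u e + ω • x := by
    rw [map_add, map_smul, LinearEquiv.apply_symm_apply]
  rw [← h3, hu, h2, ← hu (u.symm x), LinearEquiv.apply_symm_apply]

lemma le_of_sq_le_sq' {x y : ℝ} (h : x ^ 2 ≤ y ^ 2) (hy : 0 ≤ y) : x ≤ y :=
  (le_abs_self x).trans (abs_le_of_sq_le_sq h hy)

/-- alignment of two complex numbers -/
lemma align (a b : ℂ) : ∃ ω : ℂ, ‖ω‖ = 1 ∧ ‖a + ω * b‖ = ‖a‖ + ‖b‖ := by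
  by_cases hb : b = 0
  · exact ⟨1, by simp, by simp [hb]⟩
  by_cases ha : a = 0
  · exact ⟨1, by simp, by simp [ha]⟩
  have ha' : (‖a‖ : ℂ) ≠ 0 := by exact_mod_cast (norm_ne_zero_iff.2 ha)
  have hb' : (‖b‖ : ℂ) ≠ 0 := by exact_mod_cast (norm_ne_zero_iff.2 hb)
  refine ⟨a / ‖a‖ * (‖b‖ / b), ?_, ?_⟩
  · rw [norm_mul, norm_div, norm_div, Complex.norm_real, Complex.norm_real, norm_norm, norm_norm,
      div_self (norm_ne_zero_iff.2 ha), div_self (norm_ne_zero_iff.2 hb), one_mul]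
  · have h1 : a + a / ‖a‖ * (‖b‖ / b) * b = a / ‖a‖ * ((‖a‖ + ‖b‖ : ℝ) : ℂ) := by
      push_cast
      field_simp
    rw [h1, norm_mul, norm_div, Complex.norm_real, Complex.norm_real, norm_norm,
      div_self (norm_ne_zero_iff.2 ha), one_mul, Real.norm_of_nonneg (by positivity)]

section
variable {c : ℝ} (hc : 0 < c)

lemma nn_eq (c s : ℝ) (p : ℂ × ℂ) :
    ‖(Matrix.of fun (_ _ : Fin 1) => p).map Prod.fst + (s : ℂ) • (Matrix.of fun (_ _ : Fin 1) => p).map Prod.snd‖
      = ‖p.1 + (s : ℂ) * p.2‖ := by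
  rw [← l2_const_one]
  congr 1

include hc in
lemma le_nn (p : ℂ × ℂ) {s : ℝ} (hs : |s| ≤ 1) : ‖p.1 + (s : ℂ) * p.2‖ ≤ nn c p * wt c s := by
  rw [← nn_eq c s p]
  exact le_pc hc _ _ s hs

include hc in
lemma nn_le {p : ℂ × ℂ} {C : ℝ} (h : ∀ s : ℝ, |s| ≤ 1 → ‖p.1 + (s : ℂ) * p.2‖ ≤ C * wt c s) :
    nn c p ≤ C := by
  refine pc_le hc fun s hs => ?_
  rw [nn_eq c s p]
  exact h s hs

include hc in
lemma nn_nonneg (p : ℂ × ℂ) : 0 ≤ nn c p := aff_nonneg hc _ _

include hc in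
lemma wt_continuous : Continuous (wt c) := by
  unfold wt
  fun_prop

include hc in
lemma nn_attained (p : ℂ × ℂ) : ∃ s : ℝ, |s| ≤ 1 ∧ ‖p.1 + (s : ℂ) * p.2‖ = nn c p * wt c s := by
  have hcont : ContinuousOn (fun s : ℝ => ‖p.1 + (s : ℂ) * p.2‖ / wt c s) (Set.Icc (-1) 1) := by
    refine ContinuousOn.div (by fun_prop) (wt_continuous hc).continuousOn
      fun s _ => (wt_pos hc s).ne'
  obtain ⟨s, hs, hmax⟩ := isCompact_Icc.exists_isMaxOn ⟨0, by norm_num, by norm_num⟩ hcont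
  refine ⟨s, abs_le.2 hs, le_antisymm (le_nn hc p (abs_le.2 hs)) ?_⟩
  have h1 : nn c p ≤ ‖p.1 + (s : ℂ) * p.2‖ / wt c s := by
    refine nn_le hc fun r hr => ?_
    rw [← div_le_iff₀ (wt_pos hc r)]
    exact hmax (abs_le.1 hr)
  rwa [le_div_iff₀ (wt_pos hc s)] at h1

include hc in
lemma nn_add_le (p q : ℂ × ℂ) : nn c (p + q) ≤ nn c p + nn c q := by
  refine nn_le hc fun s hs => ?_
  have h1 : (p + q).1 + (s : ℂ) * (p + q).2 = (p.1 + s * p.2) + (q.1 + s * q.2) := by
    simp only [Prod.fst_add, Prod.snd_add]; ring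
  rw [h1, add_mul]
  exact (norm_add_le _ _).trans (add_le_add (le_nn hc p hs) (le_nn hc q hs))

include hc in
lemma nn_smul (z : ℂ) (p : ℂ × ℂ) : nn c (z • p) = ‖z‖ * nn c p := by
  have := (aff_operatorSpace hc).smul 1 z (Matrix.of fun _ _ => p)
  rw [← nn] at this
  rw [← this]
  unfold nn
  congr 1

include hc in
/-- functions of modulus `wt` are spears -/
lemma spear_of_wt {e : ℂ × ℂ} (h : ∀ s : ℝ, |s| ≤ 1 → ‖e.1 + (s : ℂ) * e.2‖ = wt c s) :
    IsSpear (nn c) e := by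
  have h1 : nn c e = 1 := by
    apply le_antisymm
    · exact nn_le hc fun s hs => by rw [h s hs, one_mul]
    · have h2 := le_nn hc e (s := 0) (by norm_num)
      rw [h 0 (by norm_num)] at h2
      have h3 := wt_pos hc 0
      nlinarith
  refine ⟨h1, fun x => ?_⟩
  obtain ⟨s, hs, hx⟩ := nn_attained hc x
  obtain ⟨ω, hω, hal⟩ := align (e.1 + (s : ℂ) * e.2) (x.1 + (s : ℂ) * x.2)
  refine ⟨ω, hω, le_antisymm ?_ ?_⟩
  · refine (nn_add_le hc _ _).trans (le_of_eq ?_)
    rw [nn_smul hc, hω, one_mul, h1]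
  · have h2 := le_nn hc (e + ω • x) hs
    have h3 : (e + ω • x).1 + (s : ℂ) * (e + ω • x).2
        = (e.1 + (s : ℂ) * e.2) + ω * (x.1 + (s : ℂ) * x.2) := by
      simp only [Prod.fst_add, Prod.snd_add, Prod.smul_fst, Prod.smul_snd, smul_eq_mul]; ring
    rw [h3, hal, h s hs, hx] at h2
    have h4 := wt_pos hc s
    have h5 : (1 + nn c x) * wt c s ≤ nn c (e + ω • x) * wt c s := by linarith
    exact le_of_mul_le_mul_right h5 h4

include hc in
lemma wt_of_spear {e : ℂ × ℂ} (h : IsSpear (nn c) e) {s0 : ℝ} (hs0 : |s0| ≤ 1) :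
    ‖e.1 + (s0 : ℂ) * e.2‖ = wt c s0 := by
  set x : ℂ × ℂ := (1, ((c * s0 : ℝ) : ℂ)) with hx
  have hxs : ∀ s : ℝ, ‖x.1 + (s : ℂ) * x.2‖ = |1 + c * s0 * s| := by
    intro s
    have : x.1 + (s : ℂ) * x.2 = ((1 + c * s0 * s : ℝ) : ℂ) := by
      rw [hx]; push_cast; ring
    rw [this, Complex.norm_real, Real.norm_eq_abs]
  have hid : ∀ s : ℝ, (wt c s0 * wt c s) ^ 2 = (1 + c * s0 * s) ^ 2 + c * (s - s0) ^ 2 := by
    intro s
    rw [mul_pow, wt_sq hc, wt_sq hc]
    ring
  have hle : ∀ s : ℝ, |1 + c * s0 * s| ≤ wt c s0 * wt c s := by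
    intro s
    refine abs_le_of_sq_le_sq ?_ (mul_pos (wt_pos hc _) (wt_pos hc _)).le
    rw [hid]
    have : 0 ≤ c * (s - s0) ^ 2 := by positivity
    linarith
  have hnx : nn c x = wt c s0 := by
    apply le_antisymm
    · exact nn_le hc fun s hs => by rw [hxs]; exact hle s
    · have h1 := le_nn hc x hs0
      rw [hxs] at h1
      have h2 : |1 + c * s0 * s0| = wt c s0 * wt c s0 := by
        have e : 1 + c * s0 * s0 = wt c s0 * wt c s0 := by
          have := wt_sq hc s0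
          rw [sq] at this
          rw [this]; ring
        rw [e, abs_of_pos (mul_pos (wt_pos hc _) (wt_pos hc _))]
      rw [h2] at h1
      exact le_of_mul_le_mul_right h1 (wt_pos hc s0)
  obtain ⟨ω, hω, h1⟩ := h.2 x
  obtain ⟨s, hs, h2⟩ := nn_attained hc (e + ω • x)
  have h3 : (e + ω • x).1 + (s : ℂ) * (e + ω • x).2
      = (e.1 + (s : ℂ) * e.2) + ω * (x.1 + (s : ℂ) * x.2) := by
    simp only [Prod.fst_add, Prod.snd_add, Prod.smul_fst, Prod.smul_snd, smul_eq_mul]; ring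
  rw [h3, h1, hnx] at h2
  have h4 : ‖(e.1 + (s : ℂ) * e.2) + ω * (x.1 + (s : ℂ) * x.2)‖
      ≤ ‖e.1 + (s : ℂ) * e.2‖ + |1 + c * s0 * s| := by
    refine (norm_add_le _ _).trans ?_
    rw [norm_mul, hω, one_mul, hxs]
  have h5 : ‖e.1 + (s : ℂ) * e.2‖ ≤ wt c s := by
    have := le_nn hc e hs
    rwa [h.1, one_mul] at this
  rw [h2] at h4
  have h6 := hle s
  have h7 : |1 + c * s0 * s| = wt c s0 * wt c s := by
    apply le_antisymm h6
    nlinarith
  have h8 : s = s0 := by
    have h9 := hid s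
    rw [← h7, sq_abs] at h9
    have h10 : c * (s - s0) ^ 2 = 0 := by linarith
    have h11 : (s - s0) ^ 2 = 0 := (mul_eq_zero.1 h10).resolve_left hc.ne'
    have := pow_eq_zero_iff (two_ne_zero) |>.1 h11
    linarith
  rw [h8] at h4 h5
  apply le_antisymm h5
  have h12 := hle s0
  nlinarith

/-- the two spears -/
noncomputable def sp (c : ℝ) : ℂ × ℂ := (1, Complex.I * (Real.sqrt c : ℝ))
noncomputable def sq' (c : ℝ) : ℂ × ℂ := (1, -(Complex.I * (Real.sqrt c : ℝ)))

include hc in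
lemma sp_wt (s : ℝ) : ‖(sp c).1 + (s : ℂ) * (sp c).2‖ = wt c s := by
  have h : (sp c).1 + (s : ℂ) * (sp c).2 = ((1 : ℝ) : ℂ) + ((s * Real.sqrt c : ℝ) : ℂ) * Complex.I := by
    unfold sp; push_cast; ring
  rw [h, Complex.norm_def, Complex.normSq_apply]
  unfold wt
  congr 1
  simp only [Complex.add_re, Complex.ofReal_re, Complex.mul_re, Complex.I_re, Complex.ofReal_im,
    Complex.I_im, Complex.add_im, Complex.mul_im]
  have := Real.mul_self_sqrt hc.le
  nlinarith

include hc in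
lemma sq_wt (s : ℝ) : ‖(sq' c).1 + (s : ℂ) * (sq' c).2‖ = wt c s := by
  have h : (sq' c).1 + (s : ℂ) * (sq' c).2 = ((1 : ℝ) : ℂ) + ((-(s * Real.sqrt c) : ℝ) : ℂ) * Complex.I := by
    unfold sq'; push_cast; ring
  rw [h, Complex.norm_def, Complex.normSq_apply]
  unfold wt
  congr 1
  simp only [Complex.add_re, Complex.ofReal_re, Complex.mul_re, Complex.I_re, Complex.ofReal_im,
    Complex.I_im, Complex.add_im, Complex.mul_im]
  have := Real.mul_self_sqrt hc.le
  nlinarith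

include hc in
lemma spear_sp : IsSpear (nn c) (sp c) := spear_of_wt hc fun s _ => sp_wt hc s

include hc in
lemma spear_sq : IsSpear (nn c) (sq' c) := spear_of_wt hc fun s _ => sq_wt hc s

include hc in
/-- classification of the spears -/
lemma spear_class {e : ℂ × ℂ} (h : IsSpear (nn c) e) :
    ∃ ω : ℂ, ‖ω‖ = 1 ∧ (e = ω • sp c ∨ e = ω • sq' c) := by
  have h0 := wt_of_spear hc h (s0 := 0) (by norm_num)
  have h1 := wt_of_spear hc h (s0 := 1) (by norm_num)
  have h2 := wt_of_spear hc h (s0 := -1) (by norm_num)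
  set a := e.1 with ha
  set b := e.2 with hb
  have g0 : ‖a‖ = 1 := by
    have : wt c 0 = 1 := by unfold wt; simp
    rw [this] at h0
    simpa using h0
  have g1 : ‖a + b‖ ^ 2 = 1 + c := by
    have e1 : a + ((1 : ℝ) : ℂ) * b = a + b := by push_cast; ring
    rw [e1] at h1
    rw [h1, wt_sq hc]; ring
  have g2 : ‖a - b‖ ^ 2 = 1 + c := by
    have e1 : a + ((-1 : ℝ) : ℂ) * b = a - b := by push_cast; ring
    rw [e1] at h2
    rw [h2, wt_sq hc]; ring
  have hna : a.re ^ 2 + a.im ^ 2 = 1 := by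
    have := Complex.sq_norm a
    rw [g0, Complex.normSq_apply] at this
    nlinarith
  have k1 : (a.re + b.re) ^ 2 + (a.im + b.im) ^ 2 = 1 + c := by
    rw [Complex.sq_norm, Complex.normSq_apply] at g1
    simp only [Complex.add_re, Complex.add_im] at g1
    nlinarith
  have k2 : (a.re - b.re) ^ 2 + (a.im - b.im) ^ 2 = 1 + c := by
    rw [Complex.sq_norm, Complex.normSq_apply] at g2
    simp only [Complex.sub_re, Complex.sub_im] at g2
    nlinarith
  have hdot : a.re * b.re + a.im * b.im = 0 := by nlinarith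
  have hnb : b.re ^ 2 + b.im ^ 2 = c := by nlinarith
  set t : ℝ := a.re * b.im - a.im * b.re with ht
  have ht2 : t ^ 2 = c := by
    have : t ^ 2 + (a.re * b.re + a.im * b.im) ^ 2 = (a.re ^ 2 + a.im ^ 2) * (b.re ^ 2 + b.im ^ 2) := by
      rw [ht]; ring
    rw [hdot, hna, hnb] at this
    linarith
  have hbt : b = a * (Complex.I * (t : ℂ)) := by
    apply Complex.ext
    · simp only [Complex.mul_re, Complex.I_re, Complex.ofReal_re, Complex.I_im, Complex.ofReal_im,
        Complex.mul_im]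
      have : b.re = (a.re ^ 2 + a.im ^ 2) * b.re := by rw [hna, one_mul]
      rw [ht]
      nlinarith
    · simp only [Complex.mul_re, Complex.I_re, Complex.ofReal_re, Complex.I_im, Complex.ofReal_im,
        Complex.mul_im]
      have : b.im = (a.re ^ 2 + a.im ^ 2) * b.im := by rw [hna, one_mul]
      rw [ht]
      nlinarith
  have hs := Real.sq_sqrt hc.le
  have hts : t = Real.sqrt c ∨ t = -Real.sqrt c := by
    have : (t - Real.sqrt c) * (t + Real.sqrt c) = 0 := by nlinarith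
    rcases mul_eq_zero.1 this with h | h
    · left; linarith
    · right; linarith
  refine ⟨a, g0, ?_⟩
  rcases hts with h3 | h3
  · left
    apply Prod.ext
    · simp [sp, ha]
    · show b = a * (Complex.I * (Real.sqrt c : ℝ))
      rw [hbt, h3]
  · right
    apply Prod.ext
    · simp [sq', ha]
    · show b = a * (-(Complex.I * (Real.sqrt c : ℝ)))
      rw [hbt, h3]
      push_cast
      ring

/-- the distance of the two spears -/
noncomputable def md (c : ℝ) : ℝ := 2 * Real.sqrt (c / (1 + c))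

include hc in
lemma md_pos : 0 < md c := by unfold md; positivity

include hc in
lemma md_lt_two : md c < 2 := by
  unfold md
  have : Real.sqrt (c / (1 + c)) < 1 := by
    rw [Real.sqrt_lt' one_pos, div_lt_iff₀ (by linarith)]
    linarith
  linarith

include hc in
lemma nn_diff : nn c (sp c - sq' c) ≤ md c := by
  refine nn_le hc fun s hs => ?_
  have h1 : (sp c - sq' c).1 + (s : ℂ) * (sp c - sq' c).2 = ((2 * (s * Real.sqrt c) : ℝ) : ℂ) * Complex.I := by
    simp only [sp, sq', Prod.fst_sub, Prod.snd_sub]; push_cast; ring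
  rw [h1, norm_mul, Complex.norm_I, mul_one, Complex.norm_real, Real.norm_eq_abs]
  refine abs_le_of_sq_le_sq ?_ (mul_pos (md_pos hc) (wt_pos hc s)).le
  have e1 : (md c * wt c s) ^ 2 = 4 * (c / (1 + c)) * (1 + c * (s * s)) := by
    rw [mul_pow, wt_sq hc]
    unfold md
    rw [mul_pow, Real.sq_sqrt (by positivity)]
    norm_num
  have e2 : (2 * (s * Real.sqrt c)) ^ 2 = 4 * (s ^ 2 * c) := by
    rw [mul_pow, mul_pow, Real.sq_sqrt hc.le]; norm_num
  rw [e1, e2]
  have h2 : s ^ 2 ≤ 1 := by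
    rw [← sq_abs]
    have := abs_nonneg s
    nlinarith
  have h3 : c / (1 + c) * (1 + c * (s * s)) * (1 + c) = c * (1 + c * (s * s)) := by
    field_simp
  have h4 : s ^ 2 * c * (1 + c) ≤ c / (1 + c) * (1 + c * (s * s)) * (1 + c) := by
    rw [h3]
    nlinarith
  have h5 : s ^ 2 * c ≤ c / (1 + c) * (1 + c * (s * s)) := le_of_mul_le_mul_right h4 (by linarith)
  linarith

include hc in
lemma md_sq : md c ^ 2 * (1 + c) = 4 * c := by
  unfold md
  rw [mul_pow, Real.sq_sqrt (by positivity)]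
  field_simp
  norm_num

lemma val_sq (hc : 0 ≤ c) (ω : ℂ) (hω : ‖ω‖ = 1) (s : ℝ) :
    ‖(sp c + ω • sq' c).1 + (s : ℂ) * (sp c + ω • sq' c).2‖ ^ 2
      = 2 * (1 + ω.re) + 2 * s ^ 2 * c * (1 - ω.re) + 4 * (s * Real.sqrt c) * ω.im := by
  have h1 : (sp c + ω • sq' c).1 + (s : ℂ) * (sp c + ω • sq' c).2
      = (1 + ω) + ((s * Real.sqrt c : ℝ) : ℂ) * (Complex.I * (1 - ω)) := by
    simp only [sp, sq', Prod.fst_add, Prod.snd_add, Prod.smul_fst, Prod.smul_snd, smul_eq_mul]
    push_cast; ring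
  have hω' : ω.re ^ 2 + ω.im ^ 2 = 1 := by
    have := Complex.sq_norm ω
    rw [hω, Complex.normSq_apply] at this
    nlinarith
  rw [h1, Complex.sq_norm, Complex.normSq_apply]
  simp only [Complex.add_re, Complex.one_re, Complex.mul_re, Complex.ofReal_re, Complex.I_re,
    Complex.sub_re, Complex.I_im, Complex.sub_im, Complex.one_im, Complex.ofReal_im, Complex.mul_im,
    Complex.add_im]
  have hs := Real.sq_sqrt hc
  have e : (s * Real.sqrt c) ^ 2 = s ^ 2 * c := by rw [mul_pow, hs]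
  linear_combination (1 - 2 * ω.re + (ω.re ^ 2 + ω.im ^ 2)) * e + (1 + s ^ 2 * c) * hω'

include hc in
lemma md_le (ω : ℂ) (hω : ‖ω‖ = 1) : md c ≤ nn c (sp c + ω • sq' c) := by
  have hω' : ω.re ^ 2 + ω.im ^ 2 = 1 := by
    have := Complex.sq_norm ω
    rw [hω, Complex.normSq_apply] at this
    nlinarith
  set a := ω.re with ha
  set b := ω.im with hb
  have ha1 : -1 ≤ a := by nlinarith
  have ha2 : a ≤ 1 := by nlinarith
  have hs := Real.sq_sqrt hc.le
  have hsp : 0 < Real.sqrt c := Real.sqrt_pos.2 hc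
  -- enough: a point with large value
  have key : ∀ s : ℝ, |s| ≤ 1 → md c ^ 2 * (1 + c * (s * s)) ≤
      2 * (1 + a) + 2 * s ^ 2 * c * (1 - a) + 4 * (s * Real.sqrt c) * b →
      md c ≤ nn c (sp c + ω • sq' c) := by
    intro s hs1 h
    rw [← val_sq hc.le ω hω s, ← wt_sq hc, ← mul_pow] at h
    have h1 := le_nn hc (sp c + ω • sq' c) hs1
    have h2 : md c * wt c s ≤ ‖(sp c + ω • sq' c).1 + (s : ℂ) * (sp c + ω • sq' c).2‖ :=
      le_of_sq_le_sq' h (norm_nonneg _)
    exact le_of_mul_le_mul_right (h2.trans h1) (wt_pos hc s)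
  by_cases hcase : 1 - a ≤ c * (1 + a)
  · have hA : 0 < 1 + a := by nlinarith
    refine key (b / (Real.sqrt c * (1 + a))) ?_ ?_
    · refine abs_le_of_sq_le_sq ?_ zero_le_one
      rw [div_pow, mul_pow, hs, div_le_iff₀ (by positivity)]
      nlinarith
    · have e1 : (b / (Real.sqrt c * (1 + a))) ^ 2 * c = (1 - a) / (1 + a) := by
        rw [div_pow, mul_pow, hs]
        field_simp
        nlinarith
      have e2 : (b / (Real.sqrt c * (1 + a))) * Real.sqrt c * b = 1 - a := by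
        field_simp
        nlinarith
      have e3 : 1 + c * ((b / (Real.sqrt c * (1 + a))) * (b / (Real.sqrt c * (1 + a)))) = 2 / (1 + a) := by
        have : c * ((b / (Real.sqrt c * (1 + a))) * (b / (Real.sqrt c * (1 + a)))) = (1 - a) / (1 + a) := by
          rw [← e1]; ring
        rw [this]
        field_simp
        ring
      rw [e3]
      have e4 : 2 * (1 + a) + 2 * (b / (Real.sqrt c * (1 + a))) ^ 2 * c * (1 - a)
          + 4 * ((b / (Real.sqrt c * (1 + a))) * Real.sqrt c) * b = 8 / (1 + a) := by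
        have : 2 * (1 + a) + 2 * (b / (Real.sqrt c * (1 + a))) ^ 2 * c * (1 - a)
          + 4 * ((b / (Real.sqrt c * (1 + a))) * Real.sqrt c) * b
          = 2 * (1 + a) + 2 * ((b / (Real.sqrt c * (1 + a))) ^ 2 * c) * (1 - a)
          + 4 * ((b / (Real.sqrt c * (1 + a))) * Real.sqrt c * b) := by ring
        rw [this, e1, e2]
        field_simp
        ring
      rw [e4]
      have h5 : md c ^ 2 ≤ 4 := by
        have h6 := md_lt_two hc
        have h7 := md_pos hc
        nlinarith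
      have h8 : 8 / (1 + a) = 4 * (2 / (1 + a)) := by ring
      rw [h8]
      exact mul_le_mul_of_nonneg_right h5 (by positivity)
  · push Not at hcase
    -- end point
    have hfin : c * (1 + a) ≤ Real.sqrt c * |b| := by
      refine le_of_sq_le_sq' ?_ (by positivity)
      rw [mul_pow, mul_pow, hs, sq_abs]
      have hA : 0 ≤ 1 + a := by linarith
      have h1 : c * (1 + a) * (c * (1 + a)) ≤ c * (1 + a) * (1 - a) :=
        mul_le_mul_of_nonneg_left hcase.le (by positivity)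
      nlinarith
    have h4 := md_sq hc
    by_cases hb0 : 0 ≤ b
    · refine key 1 (by norm_num) ?_
      rw [abs_of_nonneg hb0] at hfin
      have : md c ^ 2 * (1 + c * (1 * 1)) = 4 * c := by rw [← h4]; ring
      rw [this]
      nlinarith
    · push Not at hb0
      refine key (-1) (by norm_num) ?_
      rw [abs_of_neg hb0] at hfin
      have : md c ^ 2 * (1 + c * (-1 * -1)) = 4 * c := by rw [← h4]; ring
      rw [this]
      nlinarith

end

end Pool.Agent.Y280.OC
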