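import Pool.Agent.Y280.OC.Fact
import Pool.Agent.Helper547.OS.P6
/-!
The two dimensional operator spaces `E_c`: affine functions `A + s B` on `[-1,1]` with the weight
`sqrt (1 + c s²)`.
-/
set_option autoImplicit false
open scoped Matrix.Norms.L2Operator
open scoped ComplexOrder
open Matrix

namespace Pool.Agent.Y280.OC

open Pool.Agent.Helper547 Pool.Agent.Helper547.OS

/-- the weight -/
noncomputable def wt (c s : ℝ) : ℝ := Real.sqrt (1 + c * (s * s))

section
variable {c : ℝ} (hc : 0 < c)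

include hc in
lemma q_pos (s : ℝ) : 0 < 1 + c * (s * s) := by
  have : 0 ≤ c * (s * s) := mul_nonneg hc.le (mul_self_nonneg s)
  linarith

include hc in
lemma wt_pos (s : ℝ) : 0 < wt c s := Real.sqrt_pos.2 (q_pos hc s)

include hc in
lemma wt_one (s : ℝ) : 1 ≤ wt c s := by
  unfold wt
  rw [Real.one_le_sqrt]
  have : 0 ≤ c * (s * s) := mul_nonneg hc.le (mul_self_nonneg s)
  linarith

include hc in
lemma wt_sq (s : ℝ) : wt c s ^ 2 = 1 + c * (s * s) := Real.sq_sqrt (q_pos hc s).le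

include hc in
lemma wt_le {s : ℝ} (hs : |s| ≤ 1) : wt c s ≤ 1 + c := by
  unfold wt
  rw [Real.sqrt_le_left (by linarith)]
  have h1 : s * s ≤ 1 := by
    have := abs_le.1 hs
    nlinarith
  have h2 : c * (s * s) ≤ c * 1 := mul_le_mul_of_nonneg_left h1 hc.le
  nlinarith

end

variable {ι κ ν : Type*} [Fintype ι] [Fintype κ] [Fintype ν] [DecidableEq ι] [DecidableEq κ]
  [DecidableEq ν]

/-- norm of a pair as an element of the weighted space of affine functions -/
noncomputable def pc (c : ℝ) (A B : Matrix ι ι ℂ) : ℝ :=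
  ⨆ s : Set.Icc (-1 : ℝ) 1, ‖A + ((s : ℝ) : ℂ) • B‖ / wt c (s : ℝ)

section
variable {c : ℝ} (hc : 0 < c)

include hc in
lemma pc_bdd (A B : Matrix ι ι ℂ) :
    BddAbove (Set.range fun s : Set.Icc (-1 : ℝ) 1 => ‖A + ((s : ℝ) : ℂ) • B‖ / wt c (s : ℝ)) := by
  refine ⟨‖A‖ + ‖B‖, ?_⟩
  rintro _ ⟨s, rfl⟩
  simp only
  rw [div_le_iff₀ (wt_pos hc _)]
  have h1 : ‖A + ((s : ℝ) : ℂ) • B‖ ≤ ‖A‖ + ‖B‖ := by
    refine (norm_add_le _ _).trans ?_
    rw [norm_smul, Complex.norm_real, Real.norm_eq_abs]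
    have : |(s : ℝ)| ≤ 1 := abs_le.2 s.2
    have := mul_le_mul_of_nonneg_right this (norm_nonneg B)
    linarith
  have h2 := wt_one hc (s : ℝ)
  have h3 : 0 ≤ ‖A‖ + ‖B‖ := by positivity
  nlinarith

include hc in
lemma pc_nonneg (A B : Matrix ι ι ℂ) : 0 ≤ pc c A B :=
  Real.iSup_nonneg fun _ => div_nonneg (norm_nonneg _) (wt_pos hc _).le

include hc in
lemma le_pc (A B : Matrix ι ι ℂ) (s : ℝ) (hs : |s| ≤ 1) :
    ‖A + (s : ℂ) • B‖ ≤ pc c A B * wt c s := by
  rw [← div_le_iff₀ (wt_pos hc s)]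
  exact le_ciSup (pc_bdd hc A B) (⟨s, abs_le.1 hs⟩ : Set.Icc (-1 : ℝ) 1)

include hc in
lemma pc_le {A B : Matrix ι ι ℂ} {C : ℝ}
    (h : ∀ s : ℝ, |s| ≤ 1 → ‖A + (s : ℂ) • B‖ ≤ C * wt c s) : pc c A B ≤ C := by
  refine ciSup_le fun s => ?_
  rw [div_le_iff₀ (wt_pos hc _)]
  exact h s (abs_le.2 s.2)

include hc in
lemma norm_fst_le' (A B : Matrix ι ι ℂ) : ‖A‖ ≤ pc c A B := by
  have := le_pc hc A B 0 (by norm_num)
  simpa [wt] using this

include hc in
lemma norm_snd_le' (A B : Matrix ι ι ℂ) : ‖B‖ ≤ (1 + c) * pc c A B := by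
  have h1 := le_pc hc A B 1 (by norm_num)
  have h2 := le_pc hc A B (-1) (by norm_num)
  have h3 : (2 : ℂ) • B = (A + ((1 : ℝ) : ℂ) • B) - (A + ((-1 : ℝ) : ℂ) • B) := by
    rw [two_smul]; simp
  have h4 : 2 * ‖B‖ ≤ ‖A + ((1 : ℝ) : ℂ) • B‖ + ‖A + ((-1 : ℝ) : ℂ) • B‖ := by
    have : ‖(2 : ℂ) • B‖ = 2 * ‖B‖ := by rw [norm_smul]; simp
    rw [← this, h3]
    exact norm_sub_le _ _
  have h5 := wt_le hc (s := 1) (by norm_num)
  have h6 := wt_le hc (s := -1) (by norm_num)
  have h7 := pc_nonneg hc A B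
  nlinarith

end

/-- the matrix norms of the space `E_c` -/
noncomputable def aff (c : ℝ) : MatNorms (ℂ × ℂ) := fun _ x => pc c (x.map Prod.fst) (x.map Prod.snd)

variable {c : ℝ} (hc : 0 < c)

include hc in
lemma aff_operatorSpace : IsOperatorSpace (ℂ × ℂ) (aff c) where
  eq_zero_iff n x := by
    constructor
    · intro h
      have h1 := norm_fst_le' hc (x.map Prod.fst) (x.map Prod.snd)
      have h2 := norm_snd_le' hc (x.map Prod.fst) (x.map Prod.snd)
      have h' : pc c (x.map Prod.fst) (x.map Prod.snd) = 0 := h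
      rw [h'] at h1 h2
      have h3 : x.map Prod.fst = 0 := norm_le_zero_iff.1 h1
      have h4 : x.map Prod.snd = 0 := norm_le_zero_iff.1 (by simpa using h2)
      ext i j
      · exact congrFun (congrFun h3 i) j
      · exact congrFun (congrFun h4 i) j
    · rintro rfl
      apply le_antisymm _ (pc_nonneg hc _ _)
      apply pc_le hc
      intro s hs
      have : ((0 : Matrix (Fin n) (Fin n) (ℂ × ℂ)).map Prod.fst + (s : ℂ) • (0 : Matrix (Fin n) (Fin n) (ℂ × ℂ)).map Prod.snd) = 0 := by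
        ext i j; simp
      rw [this]; simp
  smul n z x := by
    show pc _ _ _ = _ * pc _ _ _
    unfold pc
    rw [Real.mul_iSup_of_nonneg (norm_nonneg z)]
    congr 1
    funext s
    have : ((z • x).map Prod.fst + ((s : ℝ) : ℂ) • (z • x).map Prod.snd) = z • (x.map Prod.fst + ((s : ℝ) : ℂ) • x.map Prod.snd) := by
      ext i j; simp; ring
    rw [this, norm_smul]; ring
  add_le n x y := by
    show pc _ _ _ ≤ pc _ _ _ + pc _ _ _
    apply pc_le hc
    intro s hs
    have : ((x + y).map Prod.fst + (s : ℂ) • (x + y).map Prod.snd) = (x.map Prod.fst + (s : ℂ) • x.map Prod.snd) + (y.map Prod.fst + (s : ℂ) • y.map Prod.snd) := by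
      ext i j; simp; ring
    rw [this, add_mul]
    exact (norm_add_le _ _).trans (add_le_add (le_pc hc _ _ s hs) (le_pc hc _ _ s hs))
  block m n x y := by
    have key : ∀ s : ℝ, ‖(Matrix.reindex finSumFinEquiv finSumFinEquiv (Matrix.fromBlocks x 0 0 y)).map Prod.fst
        + (s : ℂ) • (Matrix.reindex finSumFinEquiv finSumFinEquiv (Matrix.fromBlocks x 0 0 y)).map Prod.snd‖ =
        max ‖x.map Prod.fst + (s : ℂ) • x.map Prod.snd‖ ‖y.map Prod.fst + (s : ℂ) • y.map Prod.snd‖ := by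
      intro s
      rw [← l2_fromBlocks, ← l2_submatrix (fromBlocks (x.map Prod.fst + (s : ℂ) • x.map Prod.snd) 0 0
        (y.map Prod.fst + (s : ℂ) • y.map Prod.snd)) finSumFinEquiv.symm finSumFinEquiv.symm]
      congr 1
      ext i j
      simp only [Matrix.add_apply, Matrix.map_apply, Matrix.smul_apply, Matrix.reindex_apply, Matrix.submatrix_apply]
      rcases finSumFinEquiv.symm i with i' | i' <;> rcases finSumFinEquiv.symm j with j' | j' <;> simp
    show pc _ _ _ = max (pc _ _ _) (pc _ _ _)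
    apply le_antisymm
    · apply pc_le hc
      intro s hs
      rw [key]
      apply max_le
      · refine (le_pc hc _ _ s hs).trans ?_
        exact mul_le_mul_of_nonneg_right (le_max_left _ _) (wt_pos hc s).le
      · refine (le_pc hc _ _ s hs).trans ?_
        exact mul_le_mul_of_nonneg_right (le_max_right _ _) (wt_pos hc s).le
    · apply max_le
      · apply pc_le hc
        intro s hs
        have h1 := le_pc hc ((Matrix.reindex finSumFinEquiv finSumFinEquiv (Matrix.fromBlocks x 0 0 y)).map Prod.fst)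
          ((Matrix.reindex finSumFinEquiv finSumFinEquiv (Matrix.fromBlocks x 0 0 y)).map Prod.snd) s hs
        rw [key] at h1
        exact (le_max_left _ _).trans h1
      · apply pc_le hc
        intro s hs
        have h1 := le_pc hc ((Matrix.reindex finSumFinEquiv finSumFinEquiv (Matrix.fromBlocks x 0 0 y)).map Prod.fst)
          ((Matrix.reindex finSumFinEquiv finSumFinEquiv (Matrix.fromBlocks x 0 0 y)).map Prod.snd) s hs
        rw [key] at h1
        exact (le_max_right _ _).trans h1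
  bimodule m n a x b := by
    show pc _ _ _ ≤ _ * pc _ _ _ * _
    apply pc_le hc
    intro s hs
    have h1 : ((Matrix.of fun i j => ∑ k, ∑ l, (a i k * b l j) • x k l).map Prod.fst
        + (s : ℂ) • (Matrix.of fun i j => ∑ k, ∑ l, (a i k * b l j) • x k l).map Prod.snd) =
        a * (x.map Prod.fst + (s : ℂ) • x.map Prod.snd) * b := by
      ext i j
      simp only [Matrix.add_apply, Matrix.map_apply, Matrix.smul_apply, Matrix.of_apply, Matrix.mul_apply,
        Prod.fst_sum, Prod.snd_sum, Prod.smul_fst, Prod.smul_snd, smul_eq_mul, Finset.mul_sum, Finset.sum_mul]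
      rw [← Finset.sum_add_distrib, Finset.sum_comm]
      rw [Finset.sum_comm]
      simp only [← Finset.sum_add_distrib]
      rw [Finset.sum_comm]
      refine Finset.sum_congr rfl fun k _ => Finset.sum_congr rfl fun l _ => ?_
      ring
    rw [h1]
    calc ‖a * (x.map Prod.fst + (s : ℂ) • x.map Prod.snd) * b‖
        ≤ ‖a * (x.map Prod.fst + (s : ℂ) • x.map Prod.snd)‖ * ‖b‖ := Matrix.l2_opNorm_mul _ _
      _ ≤ (‖a‖ * ‖x.map Prod.fst + (s : ℂ) • x.map Prod.snd‖) * ‖b‖ :=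
          mul_le_mul_of_nonneg_right (Matrix.l2_opNorm_mul _ _) (norm_nonneg _)
      _ ≤ (‖a‖ * (pc c (x.map Prod.fst) (x.map Prod.snd) * wt c s)) * ‖b‖ := by
          apply mul_le_mul_of_nonneg_right _ (norm_nonneg _)
          exact mul_le_mul_of_nonneg_left (le_pc hc _ _ s hs) (norm_nonneg _)
      _ = _ := by ring

lemma weighted_isometry' {n κ : Type*} [Fintype n] [DecidableEq n] [Fintype κ] [DecidableEq κ]
    {t : κ → ℝ} {B : Matrix κ n ℂ} (d : ℝ)
    (hB : Bᴴ * B + ((d : ℝ) : ℂ) • (Bᴴ * (diagonal (fun k => (t k : ℂ)) * diagonal (fun k => (t k : ℂ))) * B) = 1)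
    (v : n → ℂ) : ∑ k, (1 + d * (t k * t k)) * ‖(B *ᵥ v) k‖ ^ 2 = ∑ j, ‖v j‖ ^ 2 := by
  have h1 := sum_norm_sq_mulVec B v
  have h2 := sum_norm_sq_mulVec (diagonal (fun k => (t k : ℂ)) * B) v
  have h3 : ((diagonal (fun k => (t k : ℂ)) * B)ᴴ * (diagonal (fun k => (t k : ℂ)) * B)) =
      Bᴴ * (diagonal (fun k => (t k : ℂ)) * diagonal (fun k => (t k : ℂ))) * B := by
    have hD : (diagonal (fun k => (t k : ℂ)))ᴴ = diagonal (fun k => (t k : ℂ)) := by
      rw [diagonal_conjTranspose]; congr 1; funext k; simp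
    rw [conjTranspose_mul, hD]
    simp only [Matrix.mul_assoc]
  have h4 : star v ⬝ᵥ ((1 : Matrix n n ℂ) *ᵥ v) = ((∑ j, ‖v j‖ ^ 2 : ℝ) : ℂ) := by
    rw [Matrix.one_mulVec, star_dot_self]
  rw [← hB, Matrix.add_mulVec, dotProduct_add, Matrix.smul_mulVec, dotProduct_smul, ← h1, ← h3, ← h2,
    smul_eq_mul, ← Complex.ofReal_mul, ← Complex.ofReal_add] at h4
  have h5 := Complex.ofReal_injective h4
  rw [← h5, Finset.mul_sum, ← Finset.sum_add_distrib]
  refine Finset.sum_congr rfl fun k _ => ?_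
  have h6 : ((diagonal (fun k => (t k : ℂ)) * B) *ᵥ v) k = (t k : ℂ) * (B *ᵥ v) k := by
    rw [← Matrix.mulVec_mulVec, Matrix.mulVec_diagonal]
  rw [h6, norm_mul, Complex.norm_real, mul_pow, Real.norm_eq_abs, sq_abs]
  ring

end Pool.Agent.Y280.OC
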