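import Pool.Agent.Y280.OC.Inv
/-!
Pairwise non isometry of the spaces `E_c`, and none of them is in the list.
-/
set_option autoImplicit false
open scoped Matrix.Norms.L2Operator
open scoped ComplexOrder
open Matrix

namespace Pool.Agent.Y280.OC

open Pool.Agent.Helper547 Pool.Agent.Helper547.OS

section
variable {c : ℝ} (hc : 0 < c)

/-- two unimodular multiples of one vector -/
lemma same_mul {g e f : ℂ × ℂ} {w1 w2 : ℂ} (h1 : ‖w1‖ = 1) (h2 : ‖w2‖ = 1) (he : e = w1 • g)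
    (hf : f = w2 • g) : ∃ ω : ℂ, ‖ω‖ = 1 ∧ e = ω • f := by
  have hw2 : w2 ≠ 0 := by rintro rfl; simp at h2
  refine ⟨w1 / w2, by rw [norm_div, h1, h2, div_one], ?_⟩
  rw [he, hf, smul_smul, div_mul_cancel₀ _ hw2]

include hc in
/-- two spears which are not unimodular multiples of each other -/
lemma classes {e f : ℂ × ℂ} (he : IsSpear (nn c) e) (hf : IsSpear (nn c) f)
    (hne : ∀ ω : ℂ, ‖ω‖ = 1 → e ≠ ω • f) :
    md c ≤ nn c (e - f) ∧ ∃ ω : ℂ, ‖ω‖ = 1 ∧ nn c (e + ω • f) ≤ md c := by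
  obtain ⟨w1, h1, e1⟩ := spear_class hc he
  obtain ⟨w2, h2, e2⟩ := spear_class hc hf
  have hw1 : w1 ≠ 0 := by rintro rfl; simp at h1
  have hw2 : w2 ≠ 0 := by rintro rfl; simp at h2
  rcases e1 with e1 | e1 <;> rcases e2 with e2 | e2
  · obtain ⟨ω, h3, h4⟩ := same_mul h1 h2 e1 e2
    exact absurd h4 (hne ω h3)
  · constructor
    · have h3 : e - f = w1 • (sp c + (-(w2 / w1)) • sq' c) := by
        rw [e1, e2, smul_add, smul_smul, mul_neg, mul_div_cancel₀ _ hw1, neg_smul, sub_eq_add_neg]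
      rw [h3, nn_smul hc, h1, one_mul]
      exact md_le hc _ (by rw [norm_neg, norm_div, h1, h2, div_one])
    · refine ⟨-(w1 / w2), by rw [norm_neg, norm_div, h1, h2, div_one], ?_⟩
      have h3 : e + (-(w1 / w2)) • f = w1 • (sp c - sq' c) := by
        rw [e1, e2, smul_smul, neg_mul, div_mul_cancel₀ _ hw2, smul_sub, neg_smul, sub_eq_add_neg]
      rw [h3, nn_smul hc, h1, one_mul]
      exact nn_diff hc
  · constructor
    · have h3 : e - f = (-w2) • (sp c + (-(w1 / w2)) • sq' c) := by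
        rw [e1, e2, smul_add, smul_smul, neg_mul_neg, mul_div_cancel₀ _ hw2, neg_smul, sub_eq_add_neg,
          add_comm]
      rw [h3, nn_smul hc, norm_neg, h2, one_mul]
      exact md_le hc _ (by rw [norm_neg, norm_div, h1, h2, div_one])
    · refine ⟨-(w1 / w2), by rw [norm_neg, norm_div, h1, h2, div_one], ?_⟩
      have h3 : e + (-(w1 / w2)) • f = (-w1) • (sp c - sq' c) := by
        rw [e1, e2, smul_smul, neg_mul, div_mul_cancel₀ _ hw2, smul_sub, neg_smul, neg_smul,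
          sub_neg_eq_add, add_comm]
      rw [h3, nn_smul hc, norm_neg, h1, one_mul]
      exact nn_diff hc
  · obtain ⟨ω, h3, h4⟩ := same_mul h1 h2 e1 e2
    exact absurd h4 (hne ω h3)

include hc in
lemma sp_ne (ω : ℂ) : sp c ≠ ω • sq' c := by
  intro h
  have h1 := congrArg Prod.fst h
  have h2 := congrArg Prod.snd h
  simp only [sp, sq', Prod.smul_fst, Prod.smul_snd, smul_eq_mul, mul_one] at h1 h2
  rw [← h1, one_mul] at h2
  have h3 : Complex.I * ((Real.sqrt c : ℝ) : ℂ) = 0 := by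
    linear_combination (1 / 2 : ℂ) * h2
  rcases mul_eq_zero.1 h3 with h4 | h4
  · exact Complex.I_ne_zero h4
  · have h5 : Real.sqrt c = 0 := by exact_mod_cast h4
    exact (Real.sqrt_pos.2 hc).ne' h5

include hc in
lemma md_le_of_iso {c' : ℝ} (hc' : 0 < c') (u : (ℂ × ℂ) ≃ₗ[ℂ] (ℂ × ℂ))
    (hu : ∀ p, nn c' (u p) = nn c p) : md c' ≤ md c := by
  have h1 := (spear_sp hc).map u hu
  have h2 := (spear_sq hc).map u hu
  have h3 := (classes hc' h1 h2 (fun ω _ h => sp_ne hc ω (u.injective (by rw [h, map_smul])))).1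
  rw [← map_sub, hu] at h3
  exact h3.trans (nn_diff hc)

include hc in
/-- No two of the spaces are isometric, even as Banach spaces. -/
theorem eq_of_iso {c' : ℝ} (hc' : 0 < c') (u : (ℂ × ℂ) ≃ₗ[ℂ] (ℂ × ℂ))
    (hu : ∀ p, nn c' (u p) = nn c p) : c = c' := by
  have h1 := md_le_of_iso hc hc' u hu
  have h2 := md_le_of_iso hc' hc u.symm (fun p => by rw [← hu, LinearEquiv.apply_symm_apply])
  have h3 : md c = md c' := le_antisymm h2 h1
  have h4 := md_sq hc
  have h5 := md_sq hc'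
  rw [h3] at h4
  have h6 : 4 * c * (1 + c') = 4 * c' * (1 + c) := by
    rw [← h4, ← h5]; ring
  linarith

lemma cb_one {E F : Type} [AddCommGroup E] [Module ℂ E] [AddCommGroup F] [Module ℂ F]
    {NE : MatNorms E} {NF : MatNorms F} (u : E ≃ₗ[ℂ] F)
    (hu : ∀ (n : ℕ) (x : Matrix (Fin n) (Fin n) E), NF n (x.map u) = NE n x) (p : E) :
    NF 1 (Matrix.of fun _ _ => u p) = NE 1 (Matrix.of fun _ _ => p) := by
  rw [← hu]
  rfl

lemma linf2_one (p : Fin 2 → ℂ) : linf2 1 (Matrix.of fun _ _ => p) = max ‖p 0‖ ‖p 1‖ := by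
  show max _ _ = _
  have h2 : (Matrix.of fun (_ _ : Fin 1) => p).map (fun v => v 0) = Matrix.of fun (_ _ : Fin 1) => p 0 := by
    ext i j; simp
  have h3 : (Matrix.of fun (_ _ : Fin 1) => p).map (fun v => v 1) = Matrix.of fun (_ _ : Fin 1) => p 1 := by
    ext i j; simp
  rw [h2, h3, l2_const_one, l2_const_one]

lemma l12_one (p : Fin 2 → ℂ) : l12 1 (Matrix.of fun _ _ => p) = ‖p 0‖ + ‖p 1‖ := by
  show sSup _ = _
  have h2 : ∀ z : Fin 2 → ℂ, ‖(Matrix.of fun (_ _ : Fin 1) => p).map (fun v => z 0 * v 0 + z 1 * v 1)‖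
      = ‖z 0 * p 0 + z 1 * p 1‖ := by
    intro z
    rw [← l2_const_one]
    congr 1
  have hb : ∀ r ∈ {r : ℝ | ∃ z : Fin 2 → ℂ, (∀ i, ‖z i‖ ≤ 1) ∧
      r = ‖(Matrix.of fun (_ _ : Fin 1) => p).map (fun v => z 0 * v 0 + z 1 * v 1)‖},
      r ≤ ‖p 0‖ + ‖p 1‖ := by
    rintro r ⟨z, hz, rfl⟩
    rw [h2]
    refine (norm_add_le _ _).trans ?_
    rw [norm_mul, norm_mul]
    have h3 := mul_le_mul_of_nonneg_right (hz 0) (norm_nonneg (p 0))
    have h4 := mul_le_mul_of_nonneg_right (hz 1) (norm_nonneg (p 1))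
    linarith
  apply le_antisymm
  · exact csSup_le ⟨_, 0, by simp, rfl⟩ hb
  · obtain ⟨ω, hω, h3⟩ := align (p 0) (p 1)
    rw [← h3]
    refine le_csSup ⟨_, hb⟩ ⟨![1, ω], ?_, ?_⟩
    · intro i; fin_cases i <;> simp [hω]
    · rw [h2]; simp

include hc in
lemma notc_linf2 : ¬ CompletelyIsometric (aff c) linf2 := by
  rintro ⟨u, hu⟩
  have h1 : ∀ p, nn c (u.symm p) = max ‖p 0‖ ‖p 1‖ := by
    intro p
    rw [← linf2_one, ← LinearEquiv.apply_symm_apply u p, cb_one u hu, LinearEquiv.apply_symm_apply]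
    rfl
  -- the spears of `ℓ_∞^2`
  have hsp : ∀ θ : ℂ, ‖θ‖ = 1 → IsSpear (fun p : Fin 2 → ℂ => max ‖p 0‖ ‖p 1‖) ![1, θ] := by
    intro θ hθ
    refine ⟨by simp [hθ], fun x => ?_⟩
    rcases le_total ‖x 1‖ ‖x 0‖ with h | h
    · obtain ⟨ω, hω, h3⟩ := align 1 (x 0)
      refine ⟨ω, hω, ?_⟩
      simp only [Pi.add_apply, Pi.smul_apply, smul_eq_mul, Matrix.cons_val_zero, Matrix.cons_val_one]
      rw [h3, norm_one, max_eq_left h]
      apply max_eq_left
      refine (norm_add_le _ _).trans ?_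
      rw [norm_mul, hω, hθ, one_mul]
      linarith
    · obtain ⟨ω, hω, h3⟩ := align θ (x 1)
      refine ⟨ω, hω, ?_⟩
      simp only [Pi.add_apply, Pi.smul_apply, smul_eq_mul, Matrix.cons_val_zero, Matrix.cons_val_one]
      rw [h3, hθ, max_eq_right h]
      apply max_eq_right
      refine (norm_add_le _ _).trans ?_
      rw [norm_mul, hω, norm_one, one_mul]
      linarith
  have hcl : ∀ θ : ℂ, ‖θ‖ = 1 → ∃ ω : ℂ, ‖ω‖ = 1 ∧
      (u.symm ![1, θ] = ω • sp c ∨ u.symm ![1, θ] = ω • sq' c) := fun θ hθ =>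
    spear_class hc ((hsp θ hθ).map u.symm h1)
  have hinj : ∀ (g : ℂ × ℂ) (θ1 θ2 w1 w2 : ℂ), ‖w1‖ = 1 → ‖w2‖ = 1 → u.symm ![1, θ1] = w1 • g →
      u.symm ![1, θ2] = w2 • g → θ1 = θ2 := by
    intro g θ1 θ2 w1 w2 hw1 hw2 h3 h4
    obtain ⟨ω, hω, h5⟩ := same_mul hw1 hw2 h3 h4
    rw [← map_smul] at h5
    have h6 := u.symm.injective h5
    have h7 := congrFun h6 0
    have h8 := congrFun h6 1
    simp only [Pi.smul_apply, smul_eq_mul, Matrix.cons_val_zero, Matrix.cons_val_one, mul_one] at h7 h8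
    rw [← h7, one_mul] at h8
    exact h8
  obtain ⟨w1, hw1, e1⟩ := hcl 1 (by simp)
  obtain ⟨w2, hw2, e2⟩ := hcl (-1) (by simp)
  obtain ⟨w3, hw3, e3⟩ := hcl Complex.I (by simp)
  have n12 : (1 : ℂ) ≠ -1 := by norm_num
  have n13 : (1 : ℂ) ≠ Complex.I := by
    intro h; have := congrArg Complex.re h; simp at this
  have n23 : (-1 : ℂ) ≠ Complex.I := by
    intro h; have := congrArg Complex.re h; simp at this
  rcases e1 with e1 | e1 <;> rcases e2 with e2 | e2 <;> rcases e3 with e3 | e3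
  · exact n12 (hinj _ _ _ _ _ hw1 hw2 e1 e2)
  · exact n12 (hinj _ _ _ _ _ hw1 hw2 e1 e2)
  · exact n13 (hinj _ _ _ _ _ hw1 hw3 e1 e3)
  · exact n23 (hinj _ _ _ _ _ hw2 hw3 e2 e3)
  · exact n23 (hinj _ _ _ _ _ hw2 hw3 e2 e3)
  · exact n13 (hinj _ _ _ _ _ hw1 hw3 e1 e3)
  · exact n12 (hinj _ _ _ _ _ hw1 hw2 e1 e2)
  · exact n12 (hinj _ _ _ _ _ hw1 hw2 e1 e2)

include hc in
lemma notc_l12 : ¬ CompletelyIsometric (aff c) l12 := by
  rintro ⟨u, hu⟩
  have h1 : ∀ p, nn c (u.symm p) = ‖p 0‖ + ‖p 1‖ := by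
    intro p
    rw [← l12_one, ← LinearEquiv.apply_symm_apply u p, cb_one u hu, LinearEquiv.apply_symm_apply]
    rfl
  have hs1 : IsSpear (fun p : Fin 2 → ℂ => ‖p 0‖ + ‖p 1‖) ![1, 0] := by
    refine ⟨by simp, fun x => ?_⟩
    obtain ⟨ω, hω, h3⟩ := align 1 (x 0)
    refine ⟨ω, hω, ?_⟩
    simp only [Pi.add_apply, Pi.smul_apply, smul_eq_mul, Matrix.cons_val_zero, Matrix.cons_val_one]
    rw [h3, norm_one, zero_add, norm_mul, hω, one_mul]
    ring
  have hs2 : IsSpear (fun p : Fin 2 → ℂ => ‖p 0‖ + ‖p 1‖) ![0, 1] := by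
    refine ⟨by simp, fun x => ?_⟩
    obtain ⟨ω, hω, h3⟩ := align 1 (x 1)
    refine ⟨ω, hω, ?_⟩
    simp only [Pi.add_apply, Pi.smul_apply, smul_eq_mul, Matrix.cons_val_zero, Matrix.cons_val_one]
    rw [h3, norm_one, zero_add, norm_mul, hω, one_mul]
    ring
  have h2 := (classes hc (hs1.map u.symm h1) (hs2.map u.symm h1) (fun ω hω h => by
    rw [← map_smul] at h
    have h3 := congrFun (u.symm.injective h) 0
    simp at h3)).2
  obtain ⟨ω, hω, h3⟩ := h2
  rw [← map_smul, ← map_add, h1] at h3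
  simp only [Pi.add_apply, Pi.smul_apply, smul_eq_mul, Matrix.cons_val_zero, Matrix.cons_val_one,
    mul_zero, add_zero, zero_add, mul_one, norm_one, hω] at h3
  have := md_lt_two hc
  linarith

include hc in
lemma euclid_contra' {k : ℕ} (u : (ℂ × ℂ) ≃ₗ[ℂ] (Fin k → ℂ))
    (h : ∀ p : ℂ × ℂ, nn c p ^ 2 = ∑ i, ‖u p i‖ ^ 2) : False := by
  have hp : nn c (sp c + sq' c) ^ 2 + nn c (sp c - sq' c) ^ 2
      = 2 * nn c (sp c) ^ 2 + 2 * nn c (sq' c) ^ 2 := by
    rw [h, h, h, h, Finset.mul_sum, Finset.mul_sum, ← Finset.sum_add_distrib,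
      ← Finset.sum_add_distrib]
    refine Finset.sum_congr rfl fun i _ => ?_
    rw [map_add, map_sub, Pi.add_apply, Pi.sub_apply]
    exact para _ _
  rw [(spear_sp hc).1, (spear_sq hc).1] at hp
  have h1 : 2 ≤ nn c (sp c + sq' c) := by
    have h2 := le_nn hc (sp c + sq' c) (s := 0) (by norm_num)
    have h3 : ‖(sp c + sq' c).1 + ((0 : ℝ) : ℂ) * (sp c + sq' c).2‖ = 2 := by
      simp only [sp, sq', Prod.fst_add, Complex.ofReal_zero, zero_mul, add_zero]
      norm_num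
    have h4 : wt c 0 = 1 := by unfold wt; simp
    rw [h3, h4, mul_one] at h2
    exact h2
  have h5 : md c ≤ nn c (sp c - sq' c) := by
    have := md_le hc (-1) (by simp)
    rwa [neg_one_smul, ← sub_eq_add_neg] at this
  have h6 := md_pos hc
  nlinarith

include hc in
lemma notc_row (k : ℕ) : ¬ CompletelyIsometric (aff c) (row k) := by
  rintro ⟨u, hu⟩
  apply euclid_contra' hc u
  intro p
  have h0 : nn c p = row k 1 ((Matrix.of fun (_ _ : Fin 1) => p).map u) := by rw [hu]; rfl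
  rw [h0]
  have h1 : row k 1 ((Matrix.of fun (_ _ : Fin 1) => p).map u) =
      ‖(Matrix.of fun (_ : Fin 1) (q : Fin k × Fin 1) => u p q.1 : Matrix (Fin 1) (Fin k × Fin 1) ℂ)‖ := rfl
  rw [h1, row_sq (fun q : Fin k × Fin 1 => u p q.1), Fintype.sum_prod_type]
  simp

include hc in
lemma notc_col (k : ℕ) : ¬ CompletelyIsometric (aff c) (col k) := by
  rintro ⟨u, hu⟩
  apply euclid_contra' hc u
  intro p
  have h0 : nn c p = col k 1 ((Matrix.of fun (_ _ : Fin 1) => p).map u) := by rw [hu]; rfl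
  rw [h0]
  have h1 : col k 1 ((Matrix.of fun (_ _ : Fin 1) => p).map u) =
      ‖(Matrix.of fun (q : Fin k × Fin 1) (_ : Fin 1) => u p q.1 : Matrix (Fin k × Fin 1) (Fin 1) ℂ)‖ := rfl
  rw [h1, col_sq (fun q : Fin k × Fin 1 => u p q.1), Fintype.sum_prod_type]
  simp

lemma notc_dim {k : ℕ} (hk : 1 < k) (N : MatNorms (ℂ × (Fin k → ℂ))) :
    ¬ CompletelyIsometric (aff c) N := by
  rintro ⟨u, -⟩
  have h := u.finrank_eq
  rw [Module.finrank_prod, Module.finrank_prod, Module.finrank_self,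
    Module.finrank_fintype_fun_eq_card, Fintype.card_fin] at h
  omega

include hc in
/-- None of the spaces is in the list. -/
theorem notc_inList : ¬ InList (aff c) := by
  rintro (h | h | ⟨k, hk, h | h | h | h | h | h⟩)
  · exact notc_linf2 hc h
  · exact notc_l12 hc h
  · exact notc_row hc k h
  · exact notc_col hc k h
  · exact notc_dim hk _ h
  · exact notc_dim hk _ h
  · exact notc_dim hk _ h
  · exact notc_dim hk _ h

end

end Pool.Agent.Y280.OC
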