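import Pool.Agent.Y280.OC.Dual
/-!
`d_SK(E_c) = 1` and `d_SK(E_c*) = 1`.
-/
set_option autoImplicit false
open scoped Matrix.Norms.L2Operator
open scoped ComplexOrder InnerProductSpace
open Matrix

namespace Pool.Agent.Y280.OC

open Pool.Agent.Helper547 Pool.Agent.Helper547.OS

variable {c : ℝ} (hc : 0 < c)

include hc in
lemma wt_lip (s r : ℝ) : wt c r ≤ wt c s + (1 + c) * |s - r| := by
  have hw := wt_pos hc s
  have h0 : 0 ≤ (1 + c) * |s - r| := by positivity
  unfold wt at hw ⊢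
  rw [Real.sqrt_le_left (by linarith)]
  have h1 := Real.sq_sqrt (q_pos hc s).le
  set W := Real.sqrt (1 + c * (s * s)) with hW
  have h2 : c * |s| ≤ (1 + c) * W := by
    refine le_of_sq_le_sq ?_ (by positivity)
    rw [mul_pow, mul_pow, h1, sq_abs]
    nlinarith [mul_self_nonneg s, mul_pos hc hc, mul_nonneg hc.le (mul_self_nonneg s),
      mul_nonneg (mul_nonneg hc.le hc.le) (mul_nonneg hc.le (mul_self_nonneg s))]
  have h3 : c * (r * r) = c * (s * s) - 2 * (c * (s * (s - r))) + c * (s - r) ^ 2 := by ring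
  have h4 : -(s * (s - r)) ≤ |s| * |s - r| := by
    rw [← abs_mul]; exact neg_le_abs _
  have h5 : c * |s| * |s - r| ≤ (1 + c) * W * |s - r| := mul_le_mul_of_nonneg_right h2 (abs_nonneg _)
  have h6 : |s - r| ^ 2 = (s - r) ^ 2 := sq_abs _
  have h7 : c * -(s * (s - r)) ≤ c * (|s| * |s - r|) := mul_le_mul_of_nonneg_left h4 hc.le
  have h8 : c * |s - r| ^ 2 ≤ (1 + c) ^ 2 * |s - r| ^ 2 :=
    mul_le_mul_of_nonneg_right (by nlinarith) (by positivity)
  nlinarith

/-- constant in the net estimate -/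
noncomputable def bcc (c : ℝ) (K : ℕ) : ℝ := (1 + 2 * (1 + c) / K) / (1 - 2 * (1 + c) / K)

include hc in
lemma net_bound' {ι : Type*} [Fintype ι] [DecidableEq ι] (A B : Matrix ι ι ℂ) {K : ℕ}
    (hK : 2 * (1 + c) < K) {C : ℝ} (hC : 0 ≤ C)
    (h : ∀ k : Fin (K + 1), ‖A + ((pt K k : ℝ) : ℂ) • B‖ ≤ C * wt c (pt K k)) :
    pc c A B ≤ bcc c K * C := by
  have hK'' : (0 : ℝ) < K := by linarith
  have hK0 : 0 < K := by exact_mod_cast hK''
  have hd : 0 < 1 - 2 * (1 + c) / (K : ℝ) := by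
    rw [sub_pos, div_lt_one hK'']; exact hK
  have hB := norm_snd_le' hc A B
  have hP := pc_nonneg hc A B
  set P := pc c A B with hPdef
  have h1 : P ≤ C * (1 + 2 * (1 + c) / K) + (2 / K) * ((1 + c) * P) := by
    apply pc_le hc
    intro s hs
    obtain ⟨k, hk⟩ := pt_net hK0 s hs
    have e1 : A + (s : ℂ) • B = (A + ((pt K k : ℝ) : ℂ) • B) + ((s - pt K k : ℝ) : ℂ) • B := by
      rw [add_assoc, ← add_smul]
      congr 2
      push_cast; ring
    have h2 : ‖((s - pt K k : ℝ) : ℂ) • B‖ ≤ (2 / K) * ((1 + c) * P) := by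
      rw [norm_smul, Complex.norm_real, Real.norm_eq_abs]
      exact mul_le_mul hk hB (norm_nonneg _) (by positivity)
    have h3 : wt c (pt K k) ≤ wt c s + 2 * (1 + c) / K := by
      refine (wt_lip hc s (pt K k)).trans ?_
      have := mul_le_mul_of_nonneg_left hk (by linarith : (0:ℝ) ≤ 1 + c)
      have e : (1 + c) * (2 / (K : ℝ)) = 2 * (1 + c) / K := by ring
      linarith
    have h4 := wt_one hc s
    have h5 : 0 ≤ (2 / (K : ℝ)) * ((1 + c) * P) := by positivity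
    have h6 : (0 : ℝ) < 2 * (1 + c) / K := by positivity
    rw [e1]
    calc ‖A + ((pt K k : ℝ) : ℂ) • B + ((s - pt K k : ℝ) : ℂ) • B‖
        ≤ ‖A + ((pt K k : ℝ) : ℂ) • B‖ + ‖((s - pt K k : ℝ) : ℂ) • B‖ := norm_add_le _ _
      _ ≤ C * wt c (pt K k) + (2 / K) * ((1 + c) * P) := add_le_add (h k) h2
      _ ≤ C * (wt c s + 2 * (1 + c) / K) + (2 / K) * ((1 + c) * P) := by
          have := mul_le_mul_of_nonneg_left h3 hC
          linarith
      _ ≤ (C * (1 + 2 * (1 + c) / K) + (2 / K) * ((1 + c) * P)) * wt c s := by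
          have e2 : (C * (1 + 2 * (1 + c) / K) + (2 / K) * ((1 + c) * P)) * wt c s - (C * (wt c s + 2 * (1 + c) / K) + (2 / K) * ((1 + c) * P))
            = (C * (2 * (1 + c) / K) + (2 / K) * ((1 + c) * P)) * (wt c s - 1) := by ring
          have e3 : 0 ≤ (C * (2 * (1 + c) / K) + (2 / K) * ((1 + c) * P)) * (wt c s - 1) := by
            apply mul_nonneg
            · positivity
            · linarith
          linarith
  unfold bcc
  rw [div_mul_eq_mul_div, le_div_iff₀ hd]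
  have e4 : (2 / (K : ℝ)) * ((1 + c) * P) = P * (2 * (1 + c) / K) := by ring
  rw [e4] at h1
  linarith

/-- coordinates of an affine function on the net, weighted -/
noncomputable def co' (c : ℝ) (K : ℕ) : (ℂ × ℂ) →ₗ[ℂ] (Fin (K + 1) → ℂ) where
  toFun x k := (((wt c (pt K k))⁻¹ : ℝ) : ℂ) * (x.1 + ((pt K k : ℝ) : ℂ) * x.2)
  map_add' x y := by
    funext k
    simp only [Prod.fst_add, Prod.snd_add, Pi.add_apply]; ring
  map_smul' c x := by
    funext k
    simp only [Prod.smul_fst, Prod.smul_snd, Pi.smul_apply, smul_eq_mul, RingHom.id_apply]; ring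

lemma co'_matrix (K n : ℕ) (x : Matrix (Fin n) (Fin n) (ℂ × ℂ)) (k : Fin (K + 1)) :
    (Matrix.of fun i j => co' c K (x i j) k : Matrix (Fin n) (Fin n) ℂ) =
      (((wt c (pt K k))⁻¹ : ℝ) : ℂ) • (x.map Prod.fst + ((pt K k : ℝ) : ℂ) • x.map Prod.snd) := by
  ext i j
  simp [co']

include hc in
lemma co'_norm (K n : ℕ) (x : Matrix (Fin n) (Fin n) (ℂ × ℂ)) (k : Fin (K + 1)) :
    ‖(Matrix.of fun i j => co' c K (x i j) k : Matrix (Fin n) (Fin n) ℂ)‖ * wt c (pt K k) =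
      ‖x.map Prod.fst + ((pt K k : ℝ) : ℂ) • x.map Prod.snd‖ := by
  rw [co'_matrix, norm_smul, Complex.norm_real, norm_inv, Real.norm_of_nonneg (wt_pos hc _).le]
  field_simp [(wt_pos hc (pt K k)).ne']

include hc in
lemma aff_nonneg (n : ℕ) (x : Matrix (Fin n) (Fin n) (ℂ × ℂ)) : 0 ≤ aff c n x := pc_nonneg hc _ _

include hc in
lemma co'_norm_le {K : ℕ} (hK : 0 < K) (n : ℕ) (x : Matrix (Fin n) (Fin n) (ℂ × ℂ)) (k : Fin (K + 1)) :
    ‖(Matrix.of fun i j => co' c K (x i j) k : Matrix (Fin n) (Fin n) ℂ)‖ ≤ aff c n x := by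
  have h1 := le_pc hc (x.map Prod.fst) (x.map Prod.snd) (pt K k) (pt_mem hK k)
  rw [← co'_norm hc] at h1
  exact le_of_mul_le_mul_right h1 (wt_pos hc _)

include hc in
lemma le_of_co' {K : ℕ} (hK : 2 * (1 + c) < K) (n : ℕ) (x : Matrix (Fin n) (Fin n) (ℂ × ℂ)) {C : ℝ}
    (hC : 0 ≤ C)
    (h : ∀ k : Fin (K + 1), ‖(Matrix.of fun i j => co' c K (x i j) k : Matrix (Fin n) (Fin n) ℂ)‖ ≤ C) :
    aff c n x ≤ bcc c K * C := by
  apply net_bound' hc _ _ hK hC
  intro k
  rw [← co'_norm hc]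
  exact mul_le_mul_of_nonneg_right (h k) (wt_pos hc _).le

include hc in
lemma bcc_pos {K : ℕ} (hK : 2 * (1 + c) < K) : 0 < bcc c K := by
  have hK'' : (0 : ℝ) < K := by linarith
  have hd : 0 < 1 - 2 * (1 + c) / (K : ℝ) := by
    rw [sub_pos, div_lt_one hK'']; exact hK
  unfold bcc
  positivity

/-- the embedding into the compact operators -/
noncomputable def emb' (c : ℝ) (K : ℕ) : (ℂ × ℂ) →ₗ[ℂ] (Hl →L[ℂ] Hl) := (dg ons (K + 1)).comp (co' c K)

include hc in
lemma bcc_lt {ε : ℝ} (hε : 0 < ε) : ∃ K : ℕ, 2 * (1 + c) < K ∧ bcc c K < 1 + ε := by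
  obtain ⟨K, hK⟩ := exists_nat_gt (max (2 * (1 + c)) (((4 + 2 * ε) * (1 + c)) / ε))
  have h4 : 2 * (1 + c) < K := lt_of_le_of_lt (le_max_left _ _) hK
  have h5 : ((4 + 2 * ε) * (1 + c)) / ε < K := lt_of_le_of_lt (le_max_right _ _) hK
  refine ⟨K, h4, ?_⟩
  have hK'' : (0 : ℝ) < K := by linarith
  have hd : 0 < 1 - 2 * (1 + c) / (K : ℝ) := by
    rw [sub_pos, div_lt_one hK'']; exact h4
  unfold bcc
  rw [div_lt_iff₀ hd]
  rw [div_lt_iff₀ hε] at h5
  have h6 : ((4 + 2 * ε) * (1 + c)) / K < ε := by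
    rw [div_lt_iff₀ hK'']; linarith
  have h7 : (1 + ε) * (1 - 2 * (1 + c) / (K : ℝ)) = 1 + ε - 2 * (1 + c) / K - ε * (2 * (1 + c) / K) := by
    ring
  have h8 : ((4 + 2 * ε) * (1 + c)) / (K : ℝ) = 2 * (2 * (1 + c) / K) + ε * (2 * (1 + c) / K) := by ring
  rw [h7]
  rw [h8] at h6
  linarith

include hc in
theorem dSK_aff : dSK (aff c) = 1 := by
  have hmem : ∀ K : ℕ, 2 * (1 + c) < K → bcc c K ∈ {r : ℝ | ∃ (u : (ℂ × ℂ) → (Hl →L[ℂ] Hl)) (A B : ℝ),
      CompactEmbedding Hl (aff c) u A B ∧ r = A * B} := by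
    intro K hK
    have hK'' : (0 : ℝ) < K := by linarith
    have hK0 : 0 < K := by exact_mod_cast hK''
    refine ⟨emb' c K, 1, bcc c K, ⟨⟨?_, ?_⟩, zero_le_one, (bcc_pos hc hK).le, ?_, ?_⟩, by rw [one_mul]⟩
    · intro z x y ξ; rw [map_add, map_smul]; rfl
    · intro x
      exact dg_compact _ _ _
    · intro n x
      rw [one_mul]
      apply csInf_le
      · exact ⟨0, fun C hC => hC.1⟩
      · refine ⟨aff_nonneg hc n x, ?_⟩
        intro ξ
        exact block_le ons_orthonormal (K + 1) n (fun i j => co' c K (x i j)) (aff_nonneg hc n x)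
          (fun k => co'_norm_le hc hK0 n x k) ξ
    · intro n x
      have key : ∀ C : ℝ, (0 ≤ C ∧ ∀ ξ : Fin n → Hl,
          ∑ i, ‖∑ j, (x.map (emb' c K)) i j (ξ j)‖ ^ 2 ≤ C ^ 2 * ∑ j, ‖ξ j‖ ^ 2) → aff c n x ≤ bcc c K * C := by
        rintro C ⟨hC0, hC⟩
        apply le_of_co' hc hK n x hC0
        intro k
        apply le_block ons_orthonormal (K + 1) n (fun i j => co' c K (x i j)) hC0
        intro ξ
        exact hC ξ
      have hle : aff c n x / bcc c K ≤ opNorm Hl n (x.map (emb' c K)) := by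
        apply le_csInf
        · refine ⟨aff c n x, aff_nonneg hc n x, ?_⟩
          intro ξ
          exact block_le ons_orthonormal (K + 1) n (fun i j => co' c K (x i j)) (aff_nonneg hc n x)
            (fun k => co'_norm_le hc hK0 n x k) ξ
        · intro C hC
          rw [div_le_iff₀ (bcc_pos hc hK), mul_comm]
          exact key C hC
      rw [div_le_iff₀ (bcc_pos hc hK), mul_comm] at hle
      exact hle
  have hlow : ∀ r ∈ {r : ℝ | ∃ (u : (ℂ × ℂ) → (Hl →L[ℂ] Hl)) (A B : ℝ),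
      CompactEmbedding Hl (aff c) u A B ∧ r = A * B}, 1 ≤ r := by
    rintro r ⟨u, A, B, ⟨-, hA0, hB0, hA, hB⟩, rfl⟩
    set x : Matrix (Fin 1) (Fin 1) (ℂ × ℂ) := Matrix.of fun _ _ => (1, 0) with hx
    have hxpos : 0 < aff c 1 x := by
      have h1 := norm_fst_le' hc (x.map Prod.fst) (x.map Prod.snd)
      have h2 : x.map Prod.fst = Matrix.of fun (_ _ : Fin 1) => (1 : ℂ) := by
        ext i j; simp [hx]
      rw [h2, l2_const_one, norm_one] at h1
      rw [← h2] at h1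
      exact lt_of_lt_of_le one_pos h1
    have h1 := hA 1 x
    have h2 := hB 1 x
    have h4 : aff c 1 x ≤ (A * B) * aff c 1 x := by
      refine h2.trans ?_
      have := mul_le_mul_of_nonneg_left h1 hB0
      linarith
    by_contra hlt
    push Not at hlt
    nlinarith
  show sInf {r : ℝ | ∃ (u : (ℂ × ℂ) → (Hl →L[ℂ] Hl)) (A B : ℝ),
    CompactEmbedding Hl (aff c) u A B ∧ r = A * B} = 1
  apply le_antisymm
  · apply le_of_forall_pos_le_add
    intro ε hε
    obtain ⟨K, hK, hlt⟩ := bcc_lt hc hε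
    exact (csInf_le ⟨1, hlow⟩ (hmem K hK)).trans hlt.le
  · obtain ⟨K, hK, -⟩ := bcc_lt hc one_pos
    exact le_csInf ⟨_, hmem K hK⟩ hlow

include hc in
theorem dSK_dual_aff : dSK (dualNorms (aff c)) = 1 := by
  rw [← dSK_aff (inv_pos.2 hc)]
  exact dSK_congr (dualMap' c hc) (fun n x => (dual_norm_eq' hc n x).symm)

include hc in
/-- `E_c* = E_{1/c}` completely isometrically. -/
theorem dual_aff : CompletelyIsometric (dualNorms (aff c)) (aff c⁻¹) :=
  ⟨dualMap' c hc, fun n x => (dual_norm_eq' hc n x).symm⟩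

end Pool.Agent.Y280.OC
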